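import Pool.Agent.Helper29.TT.Pair
import Pool.Agent.Helper29.TT.Maximal

/-!
# Averages over integral vectors of sums of functions modulo primes

`Fam t A C`: `t p` is for each prime `p` a function modulo `p` on the integral vectors with index
set `J`, with second moment at most `A` and mean at most `C / √p` in absolute value. Then
`gen_second_moment` bounds the second moment on the box `[-B, B] ^ J` of linear combinations of
the `t p` with `p ≤ √B`, and `gen_count` says that for almost all vectors `a` of the box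
`|∑_{p ≤ T} log p * t p a| ≤ √T (log T) ^ 3` for all `T` with `T₀ ≤ T ≤ √B` at once.
-/

set_option autoImplicit false

namespace Pool.Agent.Helper29.TT

open Finset

section Gen

variable {J : Type} [Fintype J] [DecidableEq J]

/-- The integral vectors with entries in `[-B, B]`. -/
noncomputable def boxJ (J : Type) [Fintype J] [DecidableEq J] (B : ℕ) : Finset (J → ℤ) :=
  Fintype.piFinset fun _ => Finset.Icc (-(B : ℤ)) B

lemma card_boxJ (B : ℕ) : ((boxJ J B).card : ℝ) = (2 * (B : ℝ) + 1) ^ Fintype.card J := by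
  unfold boxJ
  rw [Fintype.card_piFinset, Finset.prod_const, Finset.card_univ, Int.card_Icc]
  have h : ((B : ℤ) + 1 - (-(B : ℤ))).toNat = 2 * B + 1 := by omega
  rw [h]
  push_cast
  ring

lemma boxJ_le {M : ℕ} [NeZero M] (H : ℕ) {B : ℕ} (hB : 8 * H * B ≤ M) (hBM : 2 * B < M)
    (Y : (J → ZMod M) → ℝ) (hY : ∀ a, 0 ≤ Y a) :
    ∑ a ∈ boxJ J B, Y (fun m => ((a m : ℤ) : ZMod M)) ≤
      (2 / ((H : ℝ) + 1) ^ 2) ^ Fintype.card J * ∑ a : J → ZMod M, WW H a * Y a := by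
  classical
  have hH : (0 : ℝ) < ((H : ℝ) + 1) ^ 2 := by positivity
  have h1 : ∀ a ∈ boxJ J B, Y (fun m => ((a m : ℤ) : ZMod M)) ≤
      (2 / ((H : ℝ) + 1) ^ 2) ^ Fintype.card J *
        (WW H (fun m => ((a m : ℤ) : ZMod M)) * Y (fun m => ((a m : ℤ) : ZMod M))) := by
    intro a ha
    have h2 : (((H : ℝ) + 1) ^ 2 / 2) ^ Fintype.card J ≤
        WW H (fun m => ((a m : ℤ) : ZMod M)) := by
      unfold WW
      rw [← Finset.card_univ, ← Finset.prod_const]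
      apply Finset.prod_le_prod
      · intro _ _; positivity
      · intro m _
        apply ker_lower H hB
        have := (Fintype.mem_piFinset.1 ha) m
        rw [Finset.mem_Icc] at this
        rw [abs_le]; exact this
    have h3 : (1 : ℝ) ≤ (2 / ((H : ℝ) + 1) ^ 2) ^ Fintype.card J *
        WW H (fun m => ((a m : ℤ) : ZMod M)) := by
      calc (1 : ℝ) = (2 / ((H : ℝ) + 1) ^ 2) ^ Fintype.card J *
          (((H : ℝ) + 1) ^ 2 / 2) ^ Fintype.card J := by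
            rw [← mul_pow]
            have : (2 / ((H : ℝ) + 1) ^ 2) * (((H : ℝ) + 1) ^ 2 / 2) = 1 := by field_simp
            rw [this, one_pow]
        _ ≤ _ := mul_le_mul_of_nonneg_left h2 (by positivity)
    rw [← mul_assoc]
    have := mul_le_mul_of_nonneg_right h3 (hY (fun m => ((a m : ℤ) : ZMod M)))
    linarith
  refine (Finset.sum_le_sum h1).trans ?_
  rw [← Finset.mul_sum]
  apply mul_le_mul_of_nonneg_left _ (by positivity)
  have hinj : Set.InjOn (fun (a : J → ℤ) => (fun m => ((a m : ℤ) : ZMod M)))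
      (boxJ J B : Set (J → ℤ)) := by
    intro a ha b hb hab
    funext m
    have h2 := congrFun hab m
    have h3 := (Fintype.mem_piFinset.1 (Finset.mem_coe.1 ha)) m
    have h4 := (Fintype.mem_piFinset.1 (Finset.mem_coe.1 hb)) m
    rw [Finset.mem_Icc] at h3 h4
    have h5 : ((a m : ℤ) : ZMod M) = ((b m : ℤ) : ZMod M) := h2
    rw [ZMod.intCast_eq_intCast_iff_dvd_sub] at h5
    have h6 : b m - a m = 0 := by
      apply Int.eq_zero_of_abs_lt_dvd h5
      rw [abs_lt]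
      have : (2 * (B : ℤ)) < M := by exact_mod_cast hBM
      constructor <;> omega
    omega
  calc ∑ a ∈ boxJ J B, WW H (fun m => ((a m : ℤ) : ZMod M)) * Y (fun m => ((a m : ℤ) : ZMod M))
      = ∑ b ∈ (boxJ J B).image (fun (a : J → ℤ) => (fun m => ((a m : ℤ) : ZMod M))),
          WW H b * Y b := by
        rw [Finset.sum_image hinj]
    _ ≤ _ := Finset.sum_le_sum_of_subset_of_nonneg (Finset.subset_univ _)
        fun b _ _ => mul_nonneg (WW_nonneg H b) (hY b)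

/-- A family of functions modulo the primes with bounded second moments and small means. -/
structure Fam (t : ℕ → (J → ℤ) → ℝ) (A C : ℝ) : Prop where
  A_nonneg : 0 ≤ A
  C_nonneg : 0 ≤ C
  f : ∀ (p : ℕ) [Fact p.Prime], ∃ f : (J → ZMod p) → ℝ,
    (∀ a : J → ℤ, t p a = f fun j => ((a j : ℤ) : ZMod p)) ∧
    (∑ u, f u ^ 2) ≤ A * (p : ℝ) ^ Fintype.card J ∧
    |∑ u, f u| ≤ C * ((p : ℝ) ^ Fintype.card J / Real.sqrt p)

/-- The lift of a vector modulo `M`. -/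
def upJ {M : ℕ} (a : J → ZMod M) : J → ℤ := fun m => ((a m).val : ℤ)

/-- The weighted mean of a product. -/
noncomputable def SJ (t : ℕ → (J → ℤ) → ℝ) (M H : ℕ) [NeZero M] (p q : ℕ) : ℝ :=
  ∑ a : J → ZMod M, WW H a * (t p (upJ a) * t q (upJ a))

variable {t : ℕ → (J → ℤ) → ℝ} {A C : ℝ}

omit [Fintype J] [DecidableEq J] in
lemma up_f {p M : ℕ} [Fact p.Prime] [NeZero M] (h : p ∣ M) {f : (J → ZMod p) → ℝ}
    (hf : ∀ a : J → ℤ, t p a = f fun j => ((a j : ℤ) : ZMod p)) (a : J → ZMod M) :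
    t p (upJ a) = f fun j => ZMod.castHom h (ZMod p) (a j) := by
  rw [hf]
  congr 1
  funext j
  unfold upJ
  rw [ZMod.castHom_apply]
  simp

omit [Fintype J] [DecidableEq J] in
lemma up_int {p M : ℕ} [Fact p.Prime] [NeZero M] (h : p ∣ M) {f : (J → ZMod p) → ℝ}
    (hf : ∀ a : J → ℤ, t p a = f fun j => ((a j : ℤ) : ZMod p)) (a : J → ℤ) :
    t p (upJ fun m => ((a m : ℤ) : ZMod M)) = t p a := by
  rw [up_f h hf, hf a]
  congr 1
  funext j
  rw [map_intCast]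

lemma diagJ (ht : Fam t A C) {p M H : ℕ} [Fact p.Prime] [NeZero M] (h : p ∣ M)
    (hH : p * H < M) :
    SJ t M H p p ≤ A * (((H : ℝ) + 1) * M) ^ Fintype.card J := by
  have hp : (0 : ℝ) < p := by exact_mod_cast (Fact.out : p.Prime).pos
  obtain ⟨f, hf, h2, _⟩ := ht.f p
  have h1 : SJ t M H p p = (((H : ℝ) + 1) * M / p) ^ Fintype.card J * ∑ u, f u ^ 2 := by
    unfold SJ
    rw [← single_sum h hH (fun u => f u ^ 2)]
    refine Finset.sum_congr rfl fun a _ => ?_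
    rw [up_f h hf, ← sq]
  rw [h1]
  calc _ ≤ (((H : ℝ) + 1) * M / p) ^ Fintype.card J * (A * (p : ℝ) ^ Fintype.card J) :=
        mul_le_mul_of_nonneg_left h2 (by positivity)
    _ = _ := by rw [div_pow]; field_simp

lemma offdiagJ (ht : Fam t A C) {p q M H : ℕ} [Fact p.Prime] [Fact q.Prime] (hpq : p ≠ q)
    [NeZero M] (h : p ∣ M) (h' : q ∣ M) (hH : p * q * H < M) :
    |SJ t M H p q| ≤ (((H : ℝ) + 1) * M) ^ Fintype.card J *
      ((C / Real.sqrt p) * (C / Real.sqrt q)) := by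
  have hp : (0 : ℝ) < p := by exact_mod_cast (Fact.out : p.Prime).pos
  have hq : (0 : ℝ) < q := by exact_mod_cast (Fact.out : q.Prime).pos
  have hM : (0 : ℝ) < M := by exact_mod_cast Nat.pos_of_ne_zero (NeZero.ne M)
  obtain ⟨f, hf, _, hf3⟩ := ht.f p
  obtain ⟨g, hg, _, hg3⟩ := ht.f q
  have h1 : SJ t M H p q = (((H : ℝ) + 1) * M / ((p : ℝ) * q)) ^ Fintype.card J *
      ((∑ u, f u) * ∑ u, g u) := by
    unfold SJ
    rw [← pair_sum hpq h h' hH f g]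
    refine Finset.sum_congr rfl fun a _ => ?_
    rw [up_f h hf, up_f h' hg]
  rw [h1]
  exact real_aux (by positivity) hp hq (Real.sqrt_pos.2 hp) (Real.sqrt_pos.2 hq) ht.C_nonneg
    hf3 hg3

lemma quadA (P : Finset ℕ) (c e : ℕ → ℝ) (S : ℕ → ℕ → ℝ) (Z : ℝ) (hZ : 0 ≤ Z)
    (he : ∀ p ∈ P, 0 ≤ e p) (hd : ∀ p ∈ P, S p p ≤ A * Z)
    (ho : ∀ p ∈ P, ∀ q ∈ P, p ≠ q → |S p q| ≤ Z * (e p * e q)) :
    ∑ p ∈ P, ∑ q ∈ P, c p * c q * S p q ≤
      Z * (A * ∑ p ∈ P, c p ^ 2 + (∑ p ∈ P, |c p| * e p) ^ 2) := by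
  have h4 : ∀ p ∈ P, ∀ q ∈ P, c p * c q * S p q ≤
      Z * ((if p = q then A * c p ^ 2 else 0) + (|c p| * e p) * (|c q| * e q)) := by
    intro p hp q hq
    have hep := he p hp
    have heq := he q hq
    have hnn : 0 ≤ Z * ((|c p| * e p) * (|c q| * e q)) := by positivity
    by_cases h : p = q
    · rw [← h] at hnn ⊢
      rw [if_pos rfl]
      have h8 := mul_le_mul_of_nonneg_left (hd p hp) (mul_self_nonneg (c p))
      nlinarith
    · rw [if_neg h, zero_add]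
      refine (le_abs_self _).trans ?_
      rw [abs_mul, abs_mul]
      refine (mul_le_mul_of_nonneg_left (ho p hp q hq h) (by positivity)).trans (le_of_eq ?_)
      ring
  refine (Finset.sum_le_sum fun p hp => Finset.sum_le_sum fun q hq => h4 p hp q hq).trans ?_
  apply le_of_eq
  simp_rw [← Finset.mul_sum, Finset.sum_add_distrib]
  congr 1
  congr 1
  · rw [Finset.mul_sum]
    refine Finset.sum_congr rfl fun p hp => ?_
    rw [Finset.sum_ite_eq, if_pos hp]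
  · rw [sq, Finset.sum_mul_sum]

lemma swapJ {M : ℕ} [NeZero M] (H : ℕ) (P : Finset ℕ) (c : ℕ → ℝ) :
    ∑ a : J → ZMod M, WW H a * (∑ p ∈ P, c p * t p (upJ a)) ^ 2 =
      ∑ p ∈ P, ∑ q ∈ P, c p * c q * SJ t M H p q := by
  unfold SJ
  simp_rw [sq, Finset.sum_mul_sum, Finset.mul_sum]
  rw [Finset.sum_comm]
  refine Finset.sum_congr rfl fun p _ => ?_
  rw [Finset.sum_comm]
  refine Finset.sum_congr rfl fun q _ => Finset.sum_congr rfl fun a _ => ?_
  ring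

lemma final_auxJ {H M B : ℝ} {N : ℕ} {R : ℝ} (hH : 0 ≤ H) (hB : 0 ≤ B) (hM : M = 8 * B * H)
    (hR : 0 ≤ R) :
    (2 / (H + 1) ^ 2) ^ N * (((H + 1) * M) ^ N * R) ≤ 8 ^ N * (2 * B + 1) ^ N * R := by
  have hM0 : 0 ≤ M := by rw [hM]; positivity
  calc (2 / (H + 1) ^ 2) ^ N * (((H + 1) * M) ^ N * R) = (2 * M / (H + 1)) ^ N * R := by
        rw [← mul_assoc, ← mul_pow]
        congr 2
        field_simp
    _ ≤ (8 * (2 * B + 1)) ^ N * R := by
        apply mul_le_mul_of_nonneg_right _ hR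
        apply pow_le_pow_left₀ (by positivity)
        rw [div_le_iff₀ (by positivity), hM]
        nlinarith [mul_nonneg hB hH]
    _ = _ := by rw [mul_pow]

/-- The second moment on the box is that of a sum of independent variables. -/
theorem gen_second_moment (ht : Fam t A C) (T B : ℕ) (hT : 1 ≤ T) (hTB : T ^ 2 ≤ B)
    (P : Finset ℕ) (hP : ∀ p ∈ P, p.Prime ∧ p ≤ T) (c : ℕ → ℝ) :
    ∑ a ∈ boxJ J B, (∑ p ∈ P, c p * t p a) ^ 2 ≤
      8 ^ Fintype.card J * (boxJ J B).card *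
        (A * ∑ p ∈ P, c p ^ 2 + (∑ p ∈ P, |c p| * (C / Real.sqrt p)) ^ 2) := by
  have hB : 1 ≤ B := le_trans (Nat.one_le_pow _ _ hT) hTB
  obtain ⟨H, hH0, hHd⟩ : ∃ H : ℕ, 1 ≤ H ∧ ∀ p ∈ P, p ∣ H :=
    ⟨Nat.factorial T, Nat.factorial_pos T,
      fun p hp => Nat.dvd_factorial (hP p hp).1.pos (hP p hp).2⟩
  obtain ⟨M, hM⟩ : ∃ M : ℕ, M = 8 * B * H := ⟨_, rfl⟩
  have hM0 : 0 < M := by rw [hM]; positivity
  have : NeZero M := ⟨hM0.ne'⟩
  have hdvd : ∀ p ∈ P, p ∣ M := by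
    intro p hp
    rw [hM]
    exact Dvd.dvd.mul_left (hHd p hp) _
  have h1 := boxJ_le (M := M) H (J := J) (B := B) (by rw [hM]; nlinarith) (by rw [hM]; nlinarith)
    (fun a => (∑ p ∈ P, c p * t p (upJ a)) ^ 2) (fun a => sq_nonneg _)
  have h2 : ∑ a ∈ boxJ J B, (∑ p ∈ P, c p * t p a) ^ 2 =
      ∑ a ∈ boxJ J B, (∑ p ∈ P, c p * t p (upJ fun m => ((a m : ℤ) : ZMod M))) ^ 2 := by
    refine Finset.sum_congr rfl fun a _ => ?_
    congr 1
    refine Finset.sum_congr rfl fun p hp => ?_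
    have : Fact p.Prime := ⟨(hP p hp).1⟩
    obtain ⟨f, hf, _⟩ := ht.f p
    rw [up_int (hdvd p hp) hf]
  rw [h2]
  refine h1.trans ?_
  rw [swapJ]
  have h5 : ∑ p ∈ P, ∑ q ∈ P, c p * c q * SJ t M H p q ≤
      (((H : ℝ) + 1) * M) ^ Fintype.card J * (A * ∑ p ∈ P, c p ^ 2 +
        (∑ p ∈ P, |c p| * (C / Real.sqrt p)) ^ 2) := by
    have hC := ht.C_nonneg
    apply quadA P c (fun p => C / Real.sqrt p) (SJ t M H)
      ((((H : ℝ) + 1) * M) ^ Fintype.card J) (by positivity)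
    · intro p _; positivity
    · intro p hp
      have hpp : Fact p.Prime := ⟨(hP p hp).1⟩
      have h1 : p * H < M := by
        rw [hM]
        have : p ≤ B := (hP p hp).2.trans ((Nat.le_self_pow (by norm_num) T).trans hTB)
        nlinarith
      exact diagJ ht (hdvd p hp) h1
    · intro p hp q hq hpq
      have hpp : Fact p.Prime := ⟨(hP p hp).1⟩
      have hqq : Fact q.Prime := ⟨(hP q hq).1⟩
      have h1 : p * q * H < M := by
        rw [hM]
        have h51 : p * q ≤ T ^ 2 := by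
          rw [sq]; exact Nat.mul_le_mul (hP p hp).2 (hP q hq).2
        have : p * q ≤ B := h51.trans hTB
        nlinarith
      exact offdiagJ ht hpq (hdvd p hp) (hdvd q hq) h1
  have hR0 : 0 ≤ A * ∑ p ∈ P, c p ^ 2 + (∑ p ∈ P, |c p| * (C / Real.sqrt p)) ^ 2 := by
    have h6 : 0 ≤ ∑ p ∈ P, c p ^ 2 := Finset.sum_nonneg fun p _ => sq_nonneg _
    exact add_nonneg (mul_nonneg ht.A_nonneg h6) (sq_nonneg _)
  have hH' : (0 : ℝ) ≤ H := Nat.cast_nonneg _
  have hB' : (0 : ℝ) ≤ B := Nat.cast_nonneg _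
  have hM' : (M : ℝ) = 8 * B * H := by rw [hM]; push_cast; ring
  have h7 : (0 : ℝ) ≤ (2 / ((H : ℝ) + 1) ^ 2) ^ Fintype.card J :=
    pow_nonneg (div_nonneg (by norm_num) (sq_nonneg _)) _
  refine (mul_le_mul_of_nonneg_left h5 h7).trans ?_
  rw [card_boxJ]
  exact final_auxJ hH' hB' hM' hR0

end Gen

/-- The primes up to `T`. -/
def PRI (T : ℕ) : Finset ℕ := (Icc 1 T).filter Nat.Prime

/-- The primes in an interval, up to `K`. -/
def PIK (K b n : ℕ) : Finset ℕ := (Ico b (b + n)).filter fun i => i.Prime ∧ i ≤ K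

lemma PIK_eq {K T : ℕ} (h : T ≤ K) : PIK K 0 (T + 1) = PRI T := by
  ext p
  unfold PIK PRI
  rw [Finset.mem_filter, Finset.mem_filter, Finset.mem_Ico, Finset.mem_Icc]
  constructor
  · rintro ⟨⟨_, h1⟩, hp, _⟩
    exact ⟨⟨hp.one_le, by omega⟩, hp⟩
  · rintro ⟨⟨_, h1⟩, hp⟩
    exact ⟨⟨Nat.zero_le _, by omega⟩, hp, h1.trans h⟩

lemma PIK_split (K b n m : ℕ) (f : ℕ → ℝ) :
    ∑ p ∈ PIK K b (n + m), f p = ∑ p ∈ PIK K b n, f p + ∑ p ∈ PIK K (b + n) m, f p := by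
  unfold PIK
  rw [Finset.sum_filter, Finset.sum_filter, Finset.sum_filter]
  exact IS_split _ b n m

/-- The superadditive majorant. -/
noncomputable def gA (S A C : ℝ) (K b n : ℕ) : ℝ :=
  S * (A * ∑ p ∈ PIK K b n, Real.log p ^ 2 +
    (∑ p ∈ PIK K b n, |Real.log p| * (C / Real.sqrt p)) ^ 2)

lemma gA_nonneg {S A C : ℝ} (hS : 0 ≤ S) (hA : 0 ≤ A) (K b n : ℕ) : 0 ≤ gA S A C K b n := by
  unfold gA
  have h6 : 0 ≤ ∑ p ∈ PIK K b n, Real.log p ^ 2 := Finset.sum_nonneg fun p _ => sq_nonneg _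
  exact mul_nonneg hS (add_nonneg (mul_nonneg hA h6) (sq_nonneg _))

lemma gA_super {S A C : ℝ} (hS : 0 ≤ S) (hC : 0 ≤ C) (K b n m : ℕ) :
    gA S A C K b n + gA S A C K (b + n) m ≤ gA S A C K b (n + m) := by
  unfold gA
  rw [PIK_split, PIK_split]
  have h1 : 0 ≤ ∑ p ∈ PIK K b n, |Real.log p| * (C / Real.sqrt p) :=
    Finset.sum_nonneg fun p _ => by positivity
  have h2 : 0 ≤ ∑ p ∈ PIK K (b + n) m, |Real.log p| * (C / Real.sqrt p) :=
    Finset.sum_nonneg fun p _ => by positivity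
  rw [← mul_add]
  apply mul_le_mul_of_nonneg_left _ hS
  nlinarith [mul_nonneg h1 h2]

lemma sum_inv_sqrtJ (n : ℕ) : ∑ i ∈ Icc 1 n, 1 / Real.sqrt i ≤ 2 * Real.sqrt n := by
  induction n with
  | zero => simp
  | succ n ih =>
      rw [Finset.sum_Icc_succ_top (by omega)]
      have h1 : 0 < Real.sqrt ((n + 1 : ℕ) : ℝ) := Real.sqrt_pos.2 (by positivity)
      have h2 : 0 ≤ Real.sqrt (n : ℝ) := Real.sqrt_nonneg _
      have h3 : Real.sqrt ((n + 1 : ℕ) : ℝ) ^ 2 = n + 1 := by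
        rw [Real.sq_sqrt (by positivity)]; push_cast; ring
      have h4 : Real.sqrt (n : ℝ) ^ 2 = n := Real.sq_sqrt (by positivity)
      have h5 : 1 / Real.sqrt ((n + 1 : ℕ) : ℝ) ≤
          2 * Real.sqrt ((n + 1 : ℕ) : ℝ) - 2 * Real.sqrt (n : ℝ) := by
        rw [div_le_iff₀ h1]
        nlinarith [sq_nonneg (Real.sqrt ((n + 1 : ℕ) : ℝ) - Real.sqrt (n : ℝ))]
      linarith

/-- The bound for the sums over the primes up to `n`. -/
lemma prime_sumsA {S A C L : ℝ} (hS : 0 ≤ S) (hA : 0 ≤ A) (hC : 0 ≤ C) (hL : 0 ≤ L) (n : ℕ)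
    (P : Finset ℕ) (hP : ∀ p ∈ P, 1 ≤ p ∧ p ≤ n) (hl : ∀ p ∈ P, Real.log p ≤ L) :
    S * (A * ∑ p ∈ P, Real.log p ^ 2 + (∑ p ∈ P, |Real.log p| * (C / Real.sqrt p)) ^ 2) ≤
      S * ((A + 4 * C ^ 2) * (L ^ 2 * n)) := by
  have hlog : ∀ p ∈ P, 0 ≤ Real.log p := by
    intro p hp
    exact Real.log_nonneg (by exact_mod_cast (hP p hp).1)
  have hcard : (P.card : ℝ) ≤ n := by
    have h : P ⊆ Icc 1 n := fun p hp => Finset.mem_Icc.2 (hP p hp)
    have := Finset.card_le_card h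
    rw [Nat.card_Icc] at this
    exact_mod_cast this
  have h1 : ∑ p ∈ P, Real.log p ^ 2 ≤ L ^ 2 * n := by
    calc _ ≤ ∑ _p ∈ P, L ^ 2 :=
          Finset.sum_le_sum fun p hp => pow_le_pow_left₀ (hlog p hp) (hl p hp) 2
      _ = P.card * L ^ 2 := by rw [Finset.sum_const, nsmul_eq_mul]
      _ ≤ n * L ^ 2 := mul_le_mul_of_nonneg_right hcard (sq_nonneg _)
      _ = _ := mul_comm _ _
  have h2 : ∑ p ∈ P, |Real.log p| * (C / Real.sqrt p) ≤ L * C * (2 * Real.sqrt n) := by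
    calc _ ≤ ∑ p ∈ P, L * C * (1 / Real.sqrt p) := by
          refine Finset.sum_le_sum fun p hp => ?_
          rw [abs_of_nonneg (hlog p hp)]
          have : Real.log p * (C / Real.sqrt p) ≤ L * (C / Real.sqrt p) :=
            mul_le_mul_of_nonneg_right (hl p hp) (by positivity)
          calc _ ≤ L * (C / Real.sqrt p) := this
            _ = _ := by ring
      _ = L * C * ∑ p ∈ P, 1 / Real.sqrt p := by rw [Finset.mul_sum]
      _ ≤ L * C * ∑ p ∈ Icc 1 n, 1 / Real.sqrt p := by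
          apply mul_le_mul_of_nonneg_left _ (by positivity)
          apply Finset.sum_le_sum_of_subset_of_nonneg
          · exact fun p hp => Finset.mem_Icc.2 (hP p hp)
          · intro p _ _; positivity
      _ ≤ _ := mul_le_mul_of_nonneg_left (sum_inv_sqrtJ n) (by positivity)
  have h3 : 0 ≤ ∑ p ∈ P, |Real.log p| * (C / Real.sqrt p) :=
    Finset.sum_nonneg fun p _ => by positivity
  have h4 : (∑ p ∈ P, |Real.log p| * (C / Real.sqrt p)) ^ 2 ≤ 4 * C ^ 2 * (L ^ 2 * n) := by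
    calc _ ≤ (L * C * (2 * Real.sqrt n)) ^ 2 := pow_le_pow_left₀ h3 h2 2
      _ = 4 * C ^ 2 * (L ^ 2 * Real.sqrt n ^ 2) := by ring
      _ = _ := by rw [Real.sq_sqrt (Nat.cast_nonneg n)]
  have h5 := mul_le_mul_of_nonneg_left h1 hA
  apply mul_le_mul_of_nonneg_left _ hS
  linarith

lemma sum_inv_sqJ (j0 J : ℕ) (hj : 1 ≤ j0) :
    (∑ j ∈ Icc j0 J, 1 / (j : ℝ) ^ 2) ≤ (2 : ℝ) / (j0 : ℝ) := by
  have h : ∀ J, j0 ≤ J → (∑ j ∈ Icc j0 J, 1 / (j : ℝ) ^ 2) ≤
      (2 : ℝ) / (j0 : ℝ) - (2 : ℝ) / ((J : ℝ) + 1) := by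
    intro J hJ
    induction J, hJ using Nat.le_induction with
    | base =>
        rw [Finset.Icc_self, Finset.sum_singleton]
        have h0 : (1 : ℝ) ≤ j0 := by exact_mod_cast hj
        have : (2 : ℝ) / j0 - 2 / (j0 + 1) = 2 / (j0 * (j0 + 1)) := by field_simp; ring
        rw [this, div_le_div_iff₀ (by positivity) (by positivity)]
        nlinarith
    | succ J hJ ih =>
        rw [Finset.sum_Icc_succ_top (by omega)]
        have h0 : (1 : ℝ) ≤ J := by exact_mod_cast hj.trans hJ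
        have h1 : (1 : ℝ) / (((J + 1 : ℕ) : ℝ)) ^ 2 ≤
            (2 : ℝ) / ((J : ℝ) + 1) - (2 : ℝ) / (((J + 1 : ℕ) : ℝ) + 1) := by
          push_cast
          have : (2 : ℝ) / ((J : ℝ) + 1) - 2 / ((J : ℝ) + 1 + 1) =
              2 / (((J : ℝ) + 1) * ((J : ℝ) + 1 + 1)) := by field_simp; ring
          rw [this, div_le_div_iff₀ (by positivity) (by positivity)]
          nlinarith
        linarith
  by_cases hJ : j0 ≤ J
  · have h1 := h J hJ
    have h2 : (0 : ℝ) ≤ 2 / (J + 1) := by positivity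
    linarith
  · rw [Finset.Icc_eq_empty hJ, Finset.sum_empty]
    positivity

lemma term_boundJ {D c l : ℝ} (hD : 0 ≤ D) (hl : 0 < l) {j : ℕ} (hj : 1 ≤ j)
    (h : c * (2 ^ j * ((j : ℝ) * l) ^ 6) ≤
      (((j + 1 : ℕ) : ℝ) + 1) ^ 2 * (D * ((((j + 1 : ℕ) : ℝ)) ^ 2 * 2 ^ (j + 1)))) :
    c ≤ D * (72 / l ^ 6) * (1 / (j : ℝ) ^ 2) := by
  have hj' : (1 : ℝ) ≤ j := by exact_mod_cast hj
  have hj0 : (0 : ℝ) < j := by linarith
  have h2 : (0 : ℝ) < 2 ^ j := by positivity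
  have h3 : 0 < (2 : ℝ) ^ j * ((j : ℝ) * l) ^ 6 := by positivity
  rw [← le_div_iff₀ h3] at h
  refine h.trans ?_
  rw [div_le_iff₀ h3]
  have e1 : D * (72 / l ^ 6) * (1 / (j : ℝ) ^ 2) * (2 ^ j * ((j : ℝ) * l) ^ 6) =
      D * (72 * (j : ℝ) ^ 4 * 2 ^ j) := by
    field_simp
  rw [e1]
  push_cast
  have e2 : ((j : ℝ) + 1 + 1) ^ 2 ≤ 9 * (j : ℝ) ^ 2 := by nlinarith
  have e3 : ((j : ℝ) + 1) ^ 2 ≤ 4 * (j : ℝ) ^ 2 := by nlinarith
  have e4 : ((j : ℝ) + 1 + 1) ^ 2 * ((j : ℝ) + 1) ^ 2 ≤ 36 * (j : ℝ) ^ 4 := by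
    calc _ ≤ (9 * (j : ℝ) ^ 2) * (4 * (j : ℝ) ^ 2) := mul_le_mul e2 e3 (by positivity) (by positivity)
      _ = _ := by ring
  calc ((j : ℝ) + 1 + 1) ^ 2 * (D * (((j : ℝ) + 1) ^ 2 * 2 ^ (j + 1))) =
      D * (((j : ℝ) + 1 + 1) ^ 2 * ((j : ℝ) + 1) ^ 2 * (2 * 2 ^ j)) := by rw [pow_succ]; ring
    _ ≤ D * (36 * (j : ℝ) ^ 4 * (2 * 2 ^ j)) := by
        apply mul_le_mul_of_nonneg_left _ hD
        exact mul_le_mul_of_nonneg_right e4 (by positivity)
    _ = _ := by ring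

section Count

variable {J : Type} [Fintype J] [DecidableEq J] {t : ℕ → (J → ℤ) → ℝ} {A C : ℝ}

/-- The sequence of the terms up to `K`. -/
noncomputable def xJ (t : ℕ → (J → ℤ) → ℝ) (K : ℕ) (a : J → ℤ) (i : ℕ) : ℝ :=
  if i.Prime ∧ i ≤ K then Real.log i * t i a else 0

omit [Fintype J] [DecidableEq J] in
lemma IS_xJ (K : ℕ) (a : J → ℤ) (b n : ℕ) :
    IS (xJ t K a) b n = ∑ p ∈ PIK K b n, Real.log p * t p a := by
  unfold IS xJ PIK
  rw [Finset.sum_filter]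

/-- The scale. -/
noncomputable def SC (J : Type) [Fintype J] [DecidableEq J] (B : ℕ) : ℝ :=
  8 ^ Fintype.card J * (boxJ J B).card

lemma SC_nonneg (B : ℕ) : 0 ≤ SC J B :=
  mul_nonneg (pow_nonneg (by norm_num) _) (Nat.cast_nonneg _)

lemma momentJ (ht : Fam t A C) (K B : ℕ) (hK : 1 ≤ K) (hKB : K ^ 2 ≤ B) (b n : ℕ) :
    ∑ a ∈ boxJ J B, IS (xJ t K a) b n ^ 2 ≤ gA (SC J B) A C K b n := by
  have hP : ∀ p ∈ PIK K b n, p.Prime ∧ p ≤ K := by
    intro p hp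
    unfold PIK at hp
    exact (Finset.mem_filter.1 hp).2
  simp_rw [IS_xJ]
  exact gen_second_moment ht K B hK hKB (PIK K b n) hP fun p => Real.log p

lemma momentRM (ht : Fam t A C) (K B : ℕ) (hK : 1 ≤ K) (hKB : K ^ 2 ≤ B) (k : ℕ) :
    ∑ a ∈ boxJ J B, RM (xJ t K a) k 0 ≤
      ((k : ℝ) + 1) ^ 2 * (SC J B * ((A + 4 * C ^ 2) * ((k : ℝ) ^ 2 * 2 ^ k))) := by
  refine (sum_RM (boxJ J B) (fun a => xJ t K a) (gA (SC J B) A C K)
    (gA_nonneg (SC_nonneg B) ht.A_nonneg K) (gA_super (SC_nonneg B) ht.C_nonneg K)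
    (momentJ ht K B hK hKB) k 0).trans ?_
  apply mul_le_mul_of_nonneg_left _ (by positivity)
  have h := prime_sumsA (S := SC J B) (A := A) (C := C) (L := (k : ℝ)) (SC_nonneg B)
    ht.A_nonneg ht.C_nonneg (Nat.cast_nonneg k) (2 ^ k) (PIK K 0 (2 ^ k))
    (by
      intro p hp
      unfold PIK at hp
      rw [Finset.mem_filter, Finset.mem_Ico] at hp
      exact ⟨hp.2.1.one_le, by omega⟩)
    (by
      intro p hp
      unfold PIK at hp
      rw [Finset.mem_filter, Finset.mem_Ico, zero_add] at hp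
      have h1 : Real.log p ≤ Real.log ((2 : ℝ) ^ k) :=
        Real.log_le_log (by exact_mod_cast hp.2.1.pos) (by exact_mod_cast hp.1.2.le)
      rw [Real.log_pow] at h1
      have h2 : Real.log 2 ≤ 1 := by
        have := Real.log_two_lt_d9; linarith
      have h3 : (0 : ℝ) ≤ k := Nat.cast_nonneg k
      nlinarith)
  push_cast at h
  exact h

open Classical in
lemma bad_levelJ (ht : Fam t A C) (K B : ℕ) (hK : 1 ≤ K) (hKB : K ^ 2 ≤ B) {j : ℕ}
    (hj : 1 ≤ j) :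
    (((boxJ J B).filter fun a =>
      (2 : ℝ) ^ j * ((j : ℝ) * Real.log 2) ^ 6 < RM (xJ t K a) (j + 1) 0).card : ℝ) ≤
      SC J B * (A + 4 * C ^ 2) * (72 / Real.log 2 ^ 6) * (1 / (j : ℝ) ^ 2) := by
  have hl : 0 < Real.log 2 := Real.log_pos (by norm_num)
  have hD : 0 ≤ SC J B * (A + 4 * C ^ 2) := by
    have h1 := SC_nonneg (J := J) B
    have h2 := ht.A_nonneg
    positivity
  apply term_boundJ hD hl hj
  have h1 := momentRM ht K B hK hKB (j + 1)
  have h2 : (((boxJ J B).filter fun a =>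
      (2 : ℝ) ^ j * ((j : ℝ) * Real.log 2) ^ 6 < RM (xJ t K a) (j + 1) 0).card : ℝ) *
      ((2 : ℝ) ^ j * ((j : ℝ) * Real.log 2) ^ 6) ≤ ∑ a ∈ boxJ J B, RM (xJ t K a) (j + 1) 0 := by
    rw [← nsmul_eq_mul, ← Finset.sum_const]
    refine (Finset.sum_le_sum fun a ha => (Finset.mem_filter.1 ha).2.le).trans ?_
    exact Finset.sum_le_sum_of_subset_of_nonneg (Finset.filter_subset _ _)
      fun a _ _ => RM_nonneg _ _ _
  refine (h2.trans h1).trans (le_of_eq ?_)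
  ring

omit [Fintype J] [DecidableEq J] in
lemma exceedJ {K T : ℕ} (hT : 2 ≤ T) (hTK : T ≤ K) {a : J → ℤ}
    (h : Real.log T ^ 3 / Real.sqrt T < |(∑ p ∈ PRI T, Real.log p * t p a) / T|) :
    (2 : ℝ) ^ (Nat.log 2 T) * (((Nat.log 2 T : ℕ) : ℝ) * Real.log 2) ^ 6 <
      RM (xJ t K a) (Nat.log 2 T + 1) 0 := by
  have hT0 : (0 : ℝ) < T := by exact_mod_cast (by omega : 0 < T)
  have hT1 : (1 : ℝ) ≤ T := by exact_mod_cast (by omega : 1 ≤ T)
  have h1 : T + 1 ≤ 2 ^ (Nat.log 2 T + 1) := Nat.lt_pow_succ_log_self (by norm_num) T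
  have h2 : 2 ^ Nat.log 2 T ≤ T := Nat.pow_log_le_self 2 (by omega)
  have h3 := IS_le_RM (xJ t K a) (Nat.log 2 T + 1) 0 (T + 1) h1
  rw [IS_xJ, PIK_eq hTK] at h3
  refine lt_of_lt_of_le ?_ h3
  rw [abs_div, abs_of_pos hT0] at h
  set X := ∑ p ∈ PRI T, Real.log p * t p a with hX
  have hs : 0 < Real.sqrt T := Real.sqrt_pos.2 hT0
  have hlog : 0 ≤ Real.log T := Real.log_nonneg hT1
  rw [div_lt_div_iff₀ hs hT0] at h
  have h5 : (Real.log T ^ 3 * T) ^ 2 < (|X| * Real.sqrt T) ^ 2 :=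
    pow_lt_pow_left₀ h (by positivity) (by norm_num)
  rw [mul_pow, mul_pow, sq_abs, Real.sq_sqrt hT0.le] at h5
  have h6 : (T : ℝ) * Real.log T ^ 6 < X ^ 2 := by
    have : (Real.log T ^ 3) ^ 2 * (T : ℝ) ^ 2 = T * Real.log T ^ 6 * T := by ring
    rw [this] at h5
    exact lt_of_mul_lt_mul_right h5 hT0.le
  refine lt_of_le_of_lt ?_ h6
  have h7 : ((Nat.log 2 T : ℕ) : ℝ) * Real.log 2 ≤ Real.log T := by
    rw [← Real.log_pow]
    exact Real.log_le_log (by positivity) (by exact_mod_cast h2)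
  have h8 : (0 : ℝ) ≤ ((Nat.log 2 T : ℕ) : ℝ) * Real.log 2 :=
    mul_nonneg (Nat.cast_nonneg _) (Real.log_nonneg (by norm_num))
  exact mul_le_mul (by exact_mod_cast h2) (pow_le_pow_left₀ h8 h7 6) (pow_nonneg h8 6) hT0.le

/-- The constant. -/
noncomputable def KJ (J : Type) [Fintype J] (A C : ℝ) : ℝ :=
  8 ^ Fintype.card J * (A + 4 * C ^ 2) * (288 / Real.log 2 ^ 5)

open Classical in
/-- For almost all vectors of the box the sums of the terms are small for all `T` at once. -/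
theorem gen_count (ht : Fam t A C) (T₀ B : ℕ) (hT₀ : 2 ≤ T₀) :
    (((boxJ J B).filter fun a => ∃ T : ℕ, T₀ ≤ T ∧ T ^ 2 ≤ B ∧
      Real.log T ^ 3 / Real.sqrt T < |(∑ p ∈ PRI T, Real.log p * t p a) / T|).card : ℝ) ≤
      KJ J A C / Real.log T₀ * (boxJ J B).card := by
  have hl : 0 < Real.log 2 := Real.log_pos (by norm_num)
  have hT0 : (2 : ℝ) ≤ T₀ := by exact_mod_cast hT₀
  have hlT : 0 < Real.log T₀ := Real.log_pos (by linarith)
  have hA := ht.A_nonneg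
  have hKJ : 0 ≤ KJ J A C := by
    unfold KJ
    positivity
  by_cases hB : B = 0
  · have : ((boxJ J B).filter fun a => ∃ T : ℕ, T₀ ≤ T ∧ T ^ 2 ≤ B ∧
      Real.log T ^ 3 / Real.sqrt T < |(∑ p ∈ PRI T, Real.log p * t p a) / T|) = ∅ := by
      rw [Finset.filter_eq_empty_iff]
      rintro a _ ⟨T, h1, h2, _⟩
      rw [hB] at h2
      have : T ^ 2 ≥ 2 ^ 2 := Nat.pow_le_pow_left (hT₀.trans h1) 2
      omega
    rw [this, Finset.card_empty, Nat.cast_zero]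
    positivity
  obtain ⟨K, hK⟩ : ∃ K, K = Nat.sqrt B := ⟨_, rfl⟩
  have hK1 : 1 ≤ K := by rw [hK, Nat.le_sqrt']; omega
  have hKB : K ^ 2 ≤ B := by rw [hK]; exact Nat.sqrt_le' B
  obtain ⟨j0, hj0⟩ : ∃ j0, j0 = Nat.log 2 T₀ := ⟨_, rfl⟩
  have hj1 : 1 ≤ j0 := by
    rw [hj0]; exact Nat.log_pos (by norm_num) hT₀
  set D : ℝ := SC J B * (A + 4 * C ^ 2) * (72 / Real.log 2 ^ 6) with hD
  have hD0 : 0 ≤ D := by
    have := SC_nonneg (J := J) B
    positivity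
  have hsub : ((boxJ J B).filter fun a => ∃ T : ℕ, T₀ ≤ T ∧ T ^ 2 ≤ B ∧
      Real.log T ^ 3 / Real.sqrt T < |(∑ p ∈ PRI T, Real.log p * t p a) / T|) ⊆
      (Icc j0 (Nat.log 2 K)).biUnion fun j => (boxJ J B).filter fun a =>
        (2 : ℝ) ^ j * ((j : ℝ) * Real.log 2) ^ 6 < RM (xJ t K a) (j + 1) 0 := by
    intro a ha
    obtain ⟨ha1, T, h1, h2, h3⟩ := Finset.mem_filter.1 ha
    have hTK : T ≤ K := by rw [hK, Nat.le_sqrt']; exact h2
    rw [Finset.mem_biUnion]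
    refine ⟨Nat.log 2 T, ?_, ?_⟩
    · rw [Finset.mem_Icc, hj0]
      exact ⟨Nat.log_mono_right h1, Nat.log_mono_right hTK⟩
    · rw [Finset.mem_filter]
      exact ⟨ha1, exceedJ (hT₀.trans h1) hTK h3⟩
  have h1 : (((boxJ J B).filter fun a => ∃ T : ℕ, T₀ ≤ T ∧ T ^ 2 ≤ B ∧
      Real.log T ^ 3 / Real.sqrt T < |(∑ p ∈ PRI T, Real.log p * t p a) / T|).card : ℝ) ≤
      ∑ j ∈ Icc j0 (Nat.log 2 K), D * (1 / (j : ℝ) ^ 2) := by
    have h2 := (Finset.card_le_card hsub).trans Finset.card_biUnion_le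
    have h3 : (((boxJ J B).filter fun a => ∃ T : ℕ, T₀ ≤ T ∧ T ^ 2 ≤ B ∧
      Real.log T ^ 3 / Real.sqrt T < |(∑ p ∈ PRI T, Real.log p * t p a) / T|).card : ℝ) ≤
        ∑ j ∈ Icc j0 (Nat.log 2 K), (((boxJ J B).filter fun a =>
        (2 : ℝ) ^ j * ((j : ℝ) * Real.log 2) ^ 6 < RM (xJ t K a) (j + 1) 0).card : ℝ) := by
      exact_mod_cast h2
    refine h3.trans (Finset.sum_le_sum fun j hj => ?_)
    exact bad_levelJ ht K B hK1 hKB (hj1.trans (Finset.mem_Icc.1 hj).1)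
  refine h1.trans ?_
  rw [← Finset.mul_sum]
  refine (mul_le_mul_of_nonneg_left (sum_inv_sqJ j0 _ hj1) hD0).trans ?_
  have h5 : (2 : ℝ) / j0 ≤ 4 * Real.log 2 / Real.log T₀ := by
    have hj0' : (1 : ℝ) ≤ j0 := by exact_mod_cast hj1
    rw [div_le_div_iff₀ (by linarith) hlT]
    have h6 : Real.log T₀ ≤ ((j0 : ℝ) + 1) * Real.log 2 := by
      have h7 : (T₀ : ℝ) ≤ 2 ^ (j0 + 1) := by
        have := (Nat.lt_pow_succ_log_self (b := 2) (by norm_num) T₀).le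
        rw [← hj0] at this
        exact_mod_cast this
      have h8 := Real.log_le_log (by linarith) h7
      rw [Real.log_pow] at h8
      push_cast at h8
      exact h8
    nlinarith
  refine (mul_le_mul_of_nonneg_left h5 hD0).trans (le_of_eq ?_)
  rw [hD]
  unfold KJ SC
  field_simp
  ring

end Count

end Pool.Agent.Helper29.TT
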