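import Pool.Agent.Helper29.TT.Defs

set_option autoImplicit false

namespace Pool.Agent.Helper29.TT

open Finset

section Lin

variable {K : Type} [Field K] [Fintype K]

lemma card_ker_mul {V W : Type} [AddCommGroup V] [Module K V] [AddCommGroup W] [Module K W]
    [Finite V] (φ : V →ₗ[K] W) (hφ : Function.Surjective φ) :
    Nat.card V = Nat.card (LinearMap.ker φ) * Nat.card W := by
  rw [Submodule.card_eq_card_quotient_mul_card (LinearMap.ker φ),
    Nat.card_congr (φ.quotKerEquivOfSurjective hφ).toEquiv, mul_comm]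

variable {J : Type} [Fintype J]

/-- The linear form with coefficients `w`. -/
def lf (w : J → K) : (J → K) →ₗ[K] K where
  toFun a := ∑ j, a j * w j
  map_add' a b := by simp [add_mul, Finset.sum_add_distrib]
  map_smul' c a := by simp [Finset.mul_sum, mul_assoc]

@[simp] lemma lf_apply (w a : J → K) : lf w a = ∑ j, a j * w j := rfl

lemma lf_single [DecidableEq J] (w : J → K) (j : J) : lf w (Pi.single j 1) = w j := by
  simp [Pi.single_apply]

lemma lf_surj {w : J → K} (hw : w ≠ 0) : Function.Surjective (lf w) := by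
  classical
  obtain ⟨j, hj⟩ := Function.ne_iff.1 hw
  intro c
  refine ⟨Pi.single j (c / w j), ?_⟩
  have hj' : w j ≠ 0 := hj
  simp only [lf_apply, Pi.single_apply, ite_mul, zero_mul, Finset.sum_ite_eq', Finset.mem_univ,
    if_true]
  field_simp

lemma lf_surj2 {w1 w2 : J → K}
    (h : ∀ α β : K, (∀ j, α * w1 j + β * w2 j = 0) → α = 0 ∧ β = 0) :
    Function.Surjective ((lf w1).prod (lf w2)) := by
  classical
  rw [← LinearMap.range_eq_top]
  by_contra hne
  obtain ⟨f, hf, hle⟩ := Submodule.exists_le_ker_of_lt_top _ (lt_top_iff_ne_top.2 hne)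
  apply hf
  have key : ∀ j, f (1, 0) * w1 j + f (0, 1) * w2 j = 0 := by
    intro j
    have h1 : ((lf w1).prod (lf w2)) (Pi.single j 1) ∈ LinearMap.ker f :=
      hle (LinearMap.mem_range_self _ _)
    replace h1 : f (lf w1 (Pi.single j 1), lf w2 (Pi.single j 1)) = 0 := h1
    rw [lf_single, lf_single] at h1
    have h2 : ((w1 j, w2 j) : K × K) = w1 j • (1, 0) + w2 j • (0, 1) := by simp
    rw [h2, map_add, map_smul, map_smul, smul_eq_mul, smul_eq_mul] at h1
    rw [mul_comm, mul_comm (f (0, 1))]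
    exact h1
  obtain ⟨h1, h2⟩ := h _ _ key
  apply LinearMap.ext
  rintro ⟨a, b⟩
  have h3 : ((a, b) : K × K) = a • (1, 0) + b • (0, 1) := by simp
  rw [h3, map_add, map_smul, map_smul, h1, h2]
  simp

variable [DecidableEq K] [DecidableEq J]

lemma card_zero {w : J → K} (hw : w ≠ 0) :
    (((univ : Finset (J → K)).filter fun a => lf w a = 0).card : ℝ) * Fintype.card K =
      (Fintype.card K : ℝ) ^ Fintype.card J := by
  classical
  have h := card_ker_mul (lf w) (lf_surj hw)
  have h1 : Nat.card (LinearMap.ker (lf w)) =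
      ((univ : Finset (J → K)).filter fun a => lf w a = 0).card := by
    rw [Nat.card_eq_fintype_card, Fintype.card_subtype]
    simp [LinearMap.mem_ker]
  rw [h1, Nat.card_eq_fintype_card, Nat.card_eq_fintype_card, Fintype.card_fun] at h
  have := congrArg (fun n : ℕ => (n : ℝ)) h
  push_cast at this
  exact this.symm

lemma card_zero2 {w1 w2 : J → K}
    (h : ∀ α β : K, (∀ j, α * w1 j + β * w2 j = 0) → α = 0 ∧ β = 0) :
    (((univ : Finset (J → K)).filter fun a => lf w1 a = 0 ∧ lf w2 a = 0).card : ℝ) *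
      (Fintype.card K : ℝ) ^ 2 = (Fintype.card K : ℝ) ^ Fintype.card J := by
  classical
  have h := card_ker_mul _ (lf_surj2 h)
  have h1 : Nat.card (LinearMap.ker ((lf w1).prod (lf w2))) =
      ((univ : Finset (J → K)).filter fun a => lf w1 a = 0 ∧ lf w2 a = 0).card := by
    rw [Nat.card_eq_fintype_card, Fintype.card_subtype]
    simp [LinearMap.mem_ker]
  rw [h1, Nat.card_eq_fintype_card, Nat.card_eq_fintype_card, Fintype.card_fun,
    Fintype.card_prod] at h
  have := congrArg (fun n : ℕ => (n : ℝ)) h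
  push_cast at this
  rw [this]; ring

/-- The centred indicator of the vanishing of the linear form `w`. -/
noncomputable def ci (w a : J → K) : ℝ :=
  (if lf w a = 0 then (1 : ℝ) else 0) - 1 / (Fintype.card K : ℝ)

lemma sum_ci {w : J → K} (hw : w ≠ 0) : ∑ a : J → K, ci w a = 0 := by
  have hq : (0 : ℝ) < Fintype.card K := by exact_mod_cast Fintype.card_pos
  have h := card_zero hw
  unfold ci
  rw [Finset.sum_sub_distrib, Finset.sum_ite, Finset.sum_const_zero, add_zero, Finset.sum_const,
    Finset.sum_const, Finset.card_univ, Fintype.card_fun, nsmul_eq_mul, nsmul_eq_mul, mul_one]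
  push_cast
  rw [← h]
  field_simp
  ring

lemma sum_ci_mul {w1 w2 : J → K} (h1 : w1 ≠ 0) (h2 : w2 ≠ 0)
    (h : ∀ α β : K, (∀ j, α * w1 j + β * w2 j = 0) → α = 0 ∧ β = 0) :
    ∑ a : J → K, ci w1 a * ci w2 a = 0 := by
  have hq : (0 : ℝ) < Fintype.card K := by exact_mod_cast Fintype.card_pos
  have e1 := card_zero h1
  have e2 := card_zero h2
  have e3 := card_zero2 h
  have hexp : ∀ a : J → K, ci w1 a * ci w2 a =
      (if lf w1 a = 0 ∧ lf w2 a = 0 then (1 : ℝ) else 0)
      - (1 / (Fintype.card K : ℝ)) * (if lf w1 a = 0 then (1 : ℝ) else 0)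
      - (1 / (Fintype.card K : ℝ)) * (if lf w2 a = 0 then (1 : ℝ) else 0)
      + (1 / (Fintype.card K : ℝ)) ^ 2 := by
    intro a
    unfold ci
    by_cases ha : lf w1 a = 0 <;> by_cases hb : lf w2 a = 0 <;> simp only [ha, hb, if_true,
      if_false, and_true, and_false, and_self] <;> ring
  simp_rw [hexp]
  rw [Finset.sum_add_distrib, Finset.sum_sub_distrib, Finset.sum_sub_distrib, ← Finset.mul_sum,
    ← Finset.mul_sum, Finset.sum_ite, Finset.sum_ite, Finset.sum_ite]
  simp only [Finset.sum_const_zero, add_zero, Finset.sum_const, nsmul_eq_mul, mul_one,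
    Finset.card_univ, Fintype.card_fun]
  push_cast
  have hq' : (Fintype.card K : ℝ) ≠ 0 := hq.ne'
  have e1' : ((univ : Finset (J → K)).filter fun a => lf w1 a = 0).card =
      (Fintype.card K : ℝ) ^ Fintype.card J / Fintype.card K := by
    field_simp; linarith
  have e2' : ((univ : Finset (J → K)).filter fun a => lf w2 a = 0).card =
      (Fintype.card K : ℝ) ^ Fintype.card J / Fintype.card K := by
    field_simp; linarith
  have e3' : ((univ : Finset (J → K)).filter fun a => lf w1 a = 0 ∧ lf w2 a = 0).card =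
      (Fintype.card K : ℝ) ^ Fintype.card J / (Fintype.card K : ℝ) ^ 2 := by
    field_simp; linarith
  rw [e1', e2', e3']
  field_simp
  ring

lemma sum_ci_mul_le {w1 w2 : J → K} (h1 : w1 ≠ 0) :
    ∑ a : J → K, ci w1 a * ci w2 a ≤ 2 * ((Fintype.card K : ℝ) ^ Fintype.card J /
      Fintype.card K) := by
  have hq : (0 : ℝ) < Fintype.card K := by exact_mod_cast Fintype.card_pos
  have hq1 : (1 : ℝ) ≤ Fintype.card K := by exact_mod_cast Fintype.card_pos
  have e1 := card_zero h1
  have hle : ∀ a : J → K, ci w1 a * ci w2 a ≤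
      (if lf w1 a = 0 then (1 : ℝ) else 0) + 1 / (Fintype.card K : ℝ) := by
    intro a
    unfold ci
    have hi : (1 : ℝ) / Fintype.card K ≤ 1 := by
      rw [div_le_one hq]; exact hq1
    have hi0 : (0 : ℝ) ≤ 1 / Fintype.card K := by positivity
    set i := (1 : ℝ) / Fintype.card K
    by_cases ha : lf w1 a = 0 <;> by_cases hb : lf w2 a = 0 <;> simp only [ha, hb, if_true,
      if_false] <;> nlinarith
  refine (Finset.sum_le_sum fun a _ => hle a).trans ?_
  rw [Finset.sum_add_distrib, Finset.sum_ite, Finset.sum_const_zero, add_zero, Finset.sum_const,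
    Finset.sum_const, Finset.card_univ, Fintype.card_fun, nsmul_eq_mul, nsmul_eq_mul, mul_one]
  push_cast
  have e1' : ((univ : Finset (J → K)).filter fun a => lf w1 a = 0).card =
      (Fintype.card K : ℝ) ^ Fintype.card J / Fintype.card K := by
    field_simp; linarith
  rw [e1']
  apply le_of_eq
  field_simp
  ring

end Lin

section Veronese

variable {K : Type} [Field K]

/-- The vector of the values of the monomials of degree `d` at `x`. -/
def ver (d : ℕ) (x : Fin 4 → K) : Mono d → K := fun m => ∏ i, x i ^ ((m : Fin 4 →₀ ℕ) i)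

lemma prod_single (x : Fin 4 → K) (k : Fin 4) (n : ℕ) :
    ∏ i, x i ^ ((Finsupp.single k n : Fin 4 →₀ ℕ) i) = x k ^ n := by
  rw [Finset.prod_eq_single k]
  · simp
  · intro i _ hi
    rw [Finsupp.single_apply, if_neg (Ne.symm hi), pow_zero]
  · simp

lemma mono_mem {d : ℕ} (hd : 1 ≤ d) (j k : Fin 4) :
    (Finsupp.single j 1 + Finsupp.single k (d - 1) : Fin 4 →₀ ℕ) ∈ Mono d := by
  rw [Finset.mem_finsuppAntidiag]
  refine ⟨?_, Finset.subset_univ _⟩
  simp only [Finsupp.coe_add, Pi.add_apply, Finset.sum_add_distrib, Finsupp.single_apply,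
    Finset.sum_ite_eq, Finset.mem_univ, if_true]
  omega

lemma ver_apply {d : ℕ} (hd : 1 ≤ d) (x : Fin 4 → K) (j k : Fin 4) :
    ver d x ⟨_, mono_mem hd j k⟩ = x j * x k ^ (d - 1) := by
  unfold ver
  simp only [Finsupp.coe_add, Pi.add_apply, pow_add, Finset.prod_mul_distrib, prod_single, pow_one]

lemma ver_ne_zero {d : ℕ} (hd : 1 ≤ d) {x : Fin 4 → K} (hx : x ≠ 0) : ver d x ≠ 0 := by
  obtain ⟨k, hk⟩ := Function.ne_iff.1 hx
  intro h
  have h1 := congrFun h ⟨_, mono_mem hd k k⟩
  rw [ver_apply hd] at h1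
  have hk' : x k ≠ 0 := hk
  exact mul_ne_zero hk' (pow_ne_zero _ hk') h1

lemma ver_indep_aux {d : ℕ} (hd : 1 ≤ d) {x y : Fin 4 → K} (hy : y ≠ 0) {i j : Fin 4}
    (hij : x i * y j - x j * y i ≠ 0) {α β : K}
    (h : ∀ m, α * ver d x m + β * ver d y m = 0) : β = 0 := by
  obtain ⟨k, hk⟩ := Function.ne_iff.1 hy
  have hk' : y k ≠ 0 := hk
  have h1 := h ⟨_, mono_mem hd j k⟩
  have h2 := h ⟨_, mono_mem hd i k⟩
  rw [ver_apply hd, ver_apply hd] at h1 h2
  have h3 : β * (y k ^ (d - 1) * (x i * y j - x j * y i)) = 0 := by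
    linear_combination x i * h1 - x j * h2
  rcases mul_eq_zero.1 h3 with h4 | h4
  · exact h4
  · exact absurd h4 (mul_ne_zero (pow_ne_zero _ hk') hij)

lemma ver_indep {d : ℕ} (hd : 1 ≤ d) {x y : Fin 4 → K} (hx : x ≠ 0) (hy : y ≠ 0)
    (hxy : ∀ c : K, y ≠ c • x) (α β : K)
    (h : ∀ m, α * ver d x m + β * ver d y m = 0) : α = 0 ∧ β = 0 := by
  obtain ⟨i, hi⟩ := Function.ne_iff.1 hx
  have hi' : x i ≠ 0 := hi
  have : ∃ j, x i * y j - x j * y i ≠ 0 := by
    by_contra hcon
    push Not at hcon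
    apply hxy (y i / x i)
    funext j
    have := hcon j
    simp only [Pi.smul_apply, smul_eq_mul]
    field_simp
    linear_combination this
  obtain ⟨j, hj⟩ := this
  have hj2 : y i * x j - y j * x i ≠ 0 := by
    intro h0
    apply hj
    linear_combination -h0
  exact ⟨ver_indep_aux hd hx hj2 (fun m => by rw [add_comm]; exact h m),
    ver_indep_aux hd hy hj h⟩

end Veronese

end Pool.Agent.Helper29.TT
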