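import Pool.Agent.Helper29.TT.Mom

set_option autoImplicit false

namespace Pool.Agent.Helper29.TT

open Finset MvPolynomial

/-- The form with coefficients in a ring. -/
noncomputable def formR {R : Type} [CommRing R] {d : ℕ} (u : Mono d → R) :
    MvPolynomial (Fin 4) R :=
  ∑ m : Mono d, monomial (m : Fin 4 →₀ ℕ) (u m)

lemma form_eq {d : ℕ} (a : Mono d → ℤ) : form a = formR a := rfl

lemma formR_hom {R : Type} [CommRing R] {d : ℕ} (u : Mono d → R) :
    (formR u).IsHomogeneous d := by
  apply IsHomogeneous.sum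
  intro m _
  apply isHomogeneous_monomial
  have h := (Finset.mem_finsuppAntidiag.1 m.2).1
  rw [Finsupp.degree_eq_sum]
  exact h

lemma aeval_monomial' {R K : Type} [CommRing R] [CommRing K] [Algebra R K] (z : Fin 4 → K)
    (m : Fin 4 →₀ ℕ) (c : R) :
    aeval z (monomial m c) = algebraMap R K c * ∏ i, z i ^ m i := by
  rw [aeval_monomial, Finsupp.prod_fintype]
  intro i; exact pow_zero _

lemma aeval_formR {R K : Type} [CommRing R] [CommRing K] [Algebra R K] {d : ℕ} (u : Mono d → R)
    (z : Fin 4 → K) :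
    aeval z (formR u) = ∑ m : Mono d, algebraMap R K (u m) * ∏ i, z i ^ (m : Fin 4 →₀ ℕ) i := by
  unfold formR
  rw [map_sum]
  exact Finset.sum_congr rfl fun m _ => aeval_monomial' z _ _

lemma aeval_pderiv {R K : Type} [CommRing R] [CommRing K] [Algebra R K] {d : ℕ} (u : Mono d → R)
    (z : Fin 4 → K) (i : Fin 4) :
    aeval z (pderiv i (formR u)) = ∑ m : Mono d, algebraMap R K (u m) *
      (((m : Fin 4 →₀ ℕ) i : ℕ) : K) *
      ∏ j, z j ^ ((m : Fin 4 →₀ ℕ) - Finsupp.single i 1 : Fin 4 →₀ ℕ) j := by
  unfold formR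
  rw [map_sum, map_sum]
  refine Finset.sum_congr rfl fun m _ => ?_
  rw [pderiv_monomial, aeval_monomial', map_mul, map_natCast]

/-- A homogeneous polynomial is evaluated by its coefficients. -/
lemma aeval_hom {R K : Type} [CommRing R] [CommRing K] [Algebra R K] {n : ℕ}
    {P : MvPolynomial (Fin 4) R} (hP : P.IsHomogeneous n) (z : Fin 4 → K) :
    aeval z P = ∑ m : Mono n, algebraMap R K (coeff (m : Fin 4 →₀ ℕ) P) *
      ∏ i, z i ^ (m : Fin 4 →₀ ℕ) i := by
  have h1 : aeval z P = ∑ m ∈ Mono n, algebraMap R K (coeff m P) * ∏ i, z i ^ m i := by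
    rw [aeval_def, eval₂_eq']
    apply Finset.sum_subset
    · intro m hm
      rw [Finset.mem_finsuppAntidiag]
      refine ⟨?_, Finset.subset_univ _⟩
      have := hP (mem_support_iff.1 hm)
      rw [Finsupp.weight_apply] at this
      rw [← this]
      rw [Finsupp.sum_fintype]
      · simp
      · intro i; simp
    · intro m _ hm
      rw [notMem_support_iff.1 hm, map_zero, zero_mul]
  rw [h1, ← Finset.sum_coe_sort]

lemma exists_big {d : ℕ} (m : Mono (4 * (d - 1))) : ∃ i, d - 1 ≤ (m : Fin 4 →₀ ℕ) i := by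
  by_contra hcon
  push Not at hcon
  have h := (Finset.mem_finsuppAntidiag.1 m.2).1
  rw [Fin.sum_univ_four] at h
  have h0 := hcon 0
  have h1 := hcon 1
  have h2 := hcon 2
  have h3 := hcon 3
  omega

/-- A variable with large exponent. -/
noncomputable def big {d : ℕ} (m : Mono (4 * (d - 1))) : Fin 4 := (exists_big m).choose

lemma big_spec {d : ℕ} (m : Mono (4 * (d - 1))) : d - 1 ≤ (m : Fin 4 →₀ ℕ) (big m) :=
  (exists_big m).choose_spec

section Mat

variable {k : Type} [Field k] {d : ℕ}

/-- The column polynomials of the Macaulay matrix. -/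
noncomputable def colP (u : Mono d → k) (m : Mono (4 * (d - 1))) : MvPolynomial (Fin 4) k :=
  monomial ((m : Fin 4 →₀ ℕ) - Finsupp.single (big m) (d - 1)) 1 * pderiv (big m) (formR u)

/-- A square part of the Macaulay matrix. -/
noncomputable def mac (u : Mono d → k) : Matrix (Mono (4 * (d - 1))) (Mono (4 * (d - 1))) k :=
  fun m m' => coeff (m : Fin 4 →₀ ℕ) (colP u m')

lemma formR_add (u v : Mono d → k) : formR (u + v) = formR u + formR v := by
  unfold formR
  rw [← Finset.sum_add_distrib]
  exact Finset.sum_congr rfl fun m _ => by rw [Pi.add_apply, map_add]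

lemma formR_smul (t : k) (u : Mono d → k) : formR (t • u) = t • formR u := by
  unfold formR
  rw [Finset.smul_sum]
  exact Finset.sum_congr rfl fun m _ => by rw [Pi.smul_apply, smul_monomial]

lemma mac_add_smul (u e : Mono d → k) (t : k) : mac (u + t • e) = mac u + t • mac e := by
  ext m m'
  simp only [mac, colP, formR_add, formR_smul, map_add, Derivation.map_smul, mul_add, coeff_add,
    mul_smul_comm, coeff_smul, Matrix.add_apply, Matrix.smul_apply]

lemma colP_hom (u : Mono d → k) (m : Mono (4 * (d - 1))) :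
    (colP u m).IsHomogeneous (4 * (d - 1)) := by
  have h1 : (monomial ((m : Fin 4 →₀ ℕ) - Finsupp.single (big m) (d - 1)) (1 : k)).IsHomogeneous
      (3 * (d - 1)) := by
    apply isHomogeneous_monomial
    have h := (Finset.mem_finsuppAntidiag.1 m.2).1
    have hb := big_spec m
    rw [Finsupp.degree_eq_sum]
    have h2 : ((m : Fin 4 →₀ ℕ) - Finsupp.single (big m) (d - 1)) +
        Finsupp.single (big m) (d - 1) = (m : Fin 4 →₀ ℕ) := by
      apply tsub_add_cancel_of_le
      rw [Finsupp.single_le_iff]
      exact hb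
    have h3 : ∑ i, ((m : Fin 4 →₀ ℕ) - Finsupp.single (big m) (d - 1) : Fin 4 →₀ ℕ) i +
        ∑ i, (Finsupp.single (big m) (d - 1) : Fin 4 →₀ ℕ) i = 4 * (d - 1) := by
      rw [← Finset.sum_add_distrib]
      refine (Finset.sum_congr rfl fun i _ => ?_).trans h
      rw [← Finsupp.add_apply, h2]
    have h4 : ∑ i, (Finsupp.single (big m) (d - 1) : Fin 4 →₀ ℕ) i = d - 1 := by
      generalize d - 1 = e
      simp [Finsupp.single_apply]
    omega
  have h5 := h1.mul ((formR_hom u).pderiv (i := big m))
  have h6 : 3 * (d - 1) + (d - 1) = 4 * (d - 1) := by omega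
  rw [h6] at h5
  exact h5

/-- The Fermat form. -/
noncomputable def fer (k : Type) [Field k] (d : ℕ) : Mono d → k :=
  open Classical in
  fun m => if ∃ j, (m : Fin 4 →₀ ℕ) = Finsupp.single j d then 1 else 0

lemma single_mem (d : ℕ) (i : Fin 4) : (Finsupp.single i d : Fin 4 →₀ ℕ) ∈ Mono d := by
  rw [Finset.mem_finsuppAntidiag]
  refine ⟨?_, Finset.subset_univ _⟩
  simp [Finsupp.single_apply]

lemma pderiv_fer (hd : 1 ≤ d) (i : Fin 4) :
    pderiv i (formR (fer k d)) = monomial (Finsupp.single i (d - 1)) (d : k) := by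
  unfold formR
  rw [map_sum, Finset.sum_eq_single (⟨Finsupp.single i d, single_mem d i⟩ : Mono d)]
  · rw [pderiv_monomial]
    have h1 : fer k d ⟨Finsupp.single i d, single_mem d i⟩ = 1 := by
      unfold fer
      rw [if_pos ⟨i, rfl⟩]
    rw [h1, one_mul]
    have h2 : (Finsupp.single i d - Finsupp.single i 1 : Fin 4 →₀ ℕ) =
        Finsupp.single i (d - 1) := by
      rw [← Finsupp.single_tsub]
    rw [h2]
    simp
  · intro m _ hm
    rw [pderiv_monomial]
    have : fer k d m * (((m : Fin 4 →₀ ℕ) i : ℕ) : k) = 0 := by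
      unfold fer
      split_ifs with h
      · obtain ⟨j, hj⟩ := h
        by_cases hij : j = i
        · exfalso; apply hm; apply Subtype.ext; rw [hj, hij]
        · rw [hj, Finsupp.single_apply, if_neg hij]; simp
      · rw [zero_mul]
    rw [this, monomial_zero]
  · intro h; exact absurd (Finset.mem_univ _) h

lemma mac_fer (hd : 1 ≤ d) : mac (fer k d) = (d : k) • (1 : Matrix _ _ k) := by
  ext m m'
  have hb := big_spec m'
  simp only [mac, colP, pderiv_fer hd, monomial_mul, one_mul]
  have h2 : ((m' : Fin 4 →₀ ℕ) - Finsupp.single (big m') (d - 1)) +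
      Finsupp.single (big m') (d - 1) = (m' : Fin 4 →₀ ℕ) := by
    apply tsub_add_cancel_of_le
    rw [Finsupp.single_le_iff]
    exact hb
  rw [h2, coeff_monomial, Matrix.smul_apply, Matrix.one_apply]
  by_cases h : m = m'
  · subst h; simp
  · have h' : (m' : Fin 4 →₀ ℕ) ≠ m := fun h0 => h (Subtype.ext h0.symm)
    rw [if_neg h', if_neg h]; simp

/-- The Macaulay matrix of a singular form is singular. -/
lemma det_mac_eq_zero {K : Type} [Field K] [Algebra k K] (u : Mono d → k) {z : Fin 4 → K}
    (hz : z ≠ 0) (h : ∀ i, aeval z (pderiv i (formR u)) = 0) : (mac u).det = 0 := by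
  have hinj : Function.Injective (algebraMap k K) := (algebraMap k K).injective
  apply hinj
  rw [map_zero, RingHom.map_det]
  rw [← Matrix.exists_vecMul_eq_zero_iff]
  obtain ⟨j, hj⟩ := Function.ne_iff.1 hz
  refine ⟨fun m => ∏ i, z i ^ (m : Fin 4 →₀ ℕ) i, ?_, ?_⟩
  · intro h0
    have h1 := congrFun h0 ⟨Finsupp.single j (4 * (d - 1)), single_mem _ j⟩
    simp only [prod_single, Pi.zero_apply] at h1
    exact pow_ne_zero _ hj h1
  · funext m'
    have h1 := aeval_hom (colP_hom u m') z
    have h2 : aeval z (colP u m') = 0 := by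
      unfold colP
      rw [map_mul, h, mul_zero]
    rw [h2] at h1
    simp only [Matrix.vecMul, dotProduct, Pi.zero_apply, RingHom.mapMatrix_apply, Matrix.map_apply]
    rw [h1]
    refine Finset.sum_congr rfl fun m _ => ?_
    rw [mul_comm]
    rfl

lemma card_det (A : Matrix (Mono (4 * (d - 1))) (Mono (4 * (d - 1))) k) {c : k} (hc : c ≠ 0)
    [Fintype k] [DecidableEq k] :
    ((univ : Finset k).filter fun t => (A + t • (c • (1 : Matrix _ _ k))).det = 0).card ≤
      Fintype.card (Mono (4 * (d - 1))) := by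
  classical
  set Q : Polynomial k := Matrix.det ((Polynomial.X : Polynomial k) •
    (c • (1 : Matrix (Mono (4 * (d - 1))) (Mono (4 * (d - 1))) k)).map Polynomial.C +
      A.map Polynomial.C) with hQ
  have hdeg : Q.natDegree ≤ Fintype.card (Mono (4 * (d - 1))) :=
    Polynomial.natDegree_det_X_add_C_le _ _
  have hcoe : Q.coeff (Fintype.card (Mono (4 * (d - 1)))) ≠ 0 := by
    rw [hQ, Polynomial.coeff_det_X_add_C_card, Matrix.det_smul, Matrix.det_one, mul_one]
    exact pow_ne_zero _ hc
  have hQ0 : Q ≠ 0 := by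
    intro h0; rw [h0] at hcoe; simp at hcoe
  have hsub : ((univ : Finset k).filter fun t => (A + t • (c • (1 : Matrix _ _ k))).det = 0) ⊆
      Q.roots.toFinset := by
    intro t ht
    rw [Finset.mem_filter] at ht
    rw [Multiset.mem_toFinset, Polynomial.mem_roots hQ0, Polynomial.IsRoot.def, hQ,
      ← Polynomial.coe_evalRingHom, RingHom.map_det]
    rw [← ht.2]
    congr 1
    ext i j
    simp only [RingHom.mapMatrix_apply, Matrix.map_apply, Matrix.add_apply, Matrix.smul_apply,
      Polynomial.coe_evalRingHom, Polynomial.eval_add, smul_eq_mul, Polynomial.eval_mul,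
      Polynomial.eval_X, Polynomial.eval_C]
    rw [add_comm]
  calc _ ≤ Q.roots.toFinset.card := Finset.card_le_card hsub
    _ ≤ Multiset.card Q.roots := Multiset.toFinset_card_le _
    _ ≤ Q.natDegree := Polynomial.card_roots' _
    _ ≤ _ := hdeg

lemma card_sing [Fintype k] [DecidableEq k] (hd : 1 ≤ d) (hdk : (d : k) ≠ 0) :
    ((univ : Finset (Mono d → k)).filter fun u => (mac u).det = 0).card * Fintype.card k ≤
      Fintype.card (Mono (4 * (d - 1))) * Fintype.card (Mono d → k) := by
  classical
  set S := (univ : Finset (Mono d → k)).filter fun u => (mac u).det = 0 with hS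
  have h1 : ∀ t : k, ((univ : Finset (Mono d → k)).filter
      fun u => (mac (u + t • fer k d)).det = 0).card = S.card := by
    intro t
    apply Finset.card_bij (fun u _ => u + t • fer k d)
    · intro u hu; rw [hS, Finset.mem_filter]; exact ⟨Finset.mem_univ _, (Finset.mem_filter.1 hu).2⟩
    · intro u _ v _ h; exact add_right_cancel h
    · intro v hv
      refine ⟨v - t • fer k d, ?_, by simp⟩
      rw [Finset.mem_filter]
      refine ⟨Finset.mem_univ _, ?_⟩
      rw [sub_add_cancel]
      exact (Finset.mem_filter.1 hv).2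
  have h2 : S.card * Fintype.card k = ∑ t : k, ((univ : Finset (Mono d → k)).filter
      fun u => (mac (u + t • fer k d)).det = 0).card := by
    rw [Finset.sum_congr rfl fun t _ => h1 t, Finset.sum_const, Finset.card_univ, smul_eq_mul,
      mul_comm]
  rw [h2]
  simp_rw [Finset.card_filter]
  rw [Finset.sum_comm]
  calc _ ≤ ∑ _u : Mono d → k, Fintype.card (Mono (4 * (d - 1))) := by
        refine Finset.sum_le_sum fun u _ => ?_
        rw [← Finset.card_filter]
        have := card_det (mac u) hdk
        simp_rw [mac_add_smul, mac_fer hd]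
        exact this
    _ = _ := by rw [Finset.sum_const, Finset.card_univ, smul_eq_mul, mul_comm]

end Mat

end Pool.Agent.Helper29.TT
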