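import Pool.Agent.Helper29.TT.Final

set_option autoImplicit false

namespace Pool.Agent.Helper29.TT

open Finset MvPolynomial

lemma PI_eq_PR {K T : ℕ} (h : T ≤ K) : PI K 0 (T + 1) = PR T := by
  ext p
  unfold PI PR
  rw [Finset.mem_filter, Finset.mem_filter, Finset.mem_Ico, Finset.mem_Icc]
  constructor
  · rintro ⟨⟨_, h1⟩, hp, _⟩
    exact ⟨⟨hp.one_le, by omega⟩, hp⟩
  · rintro ⟨⟨_, h1⟩, hp⟩
    exact ⟨⟨Nat.zero_le _, by omega⟩, hp, h1.trans h⟩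

lemma sum_inv_sq (j0 J : ℕ) (hj : 1 ≤ j0) : (∑ j ∈ Icc j0 J, 1 / (j : ℝ) ^ 2) ≤ (2 : ℝ) / (j0 : ℝ) := by
  have h : ∀ J, j0 ≤ J → (∑ j ∈ Icc j0 J, 1 / (j : ℝ) ^ 2) ≤
      (2 : ℝ) / (j0 : ℝ) - (2 : ℝ) / ((J : ℝ) + 1) := by
    intro J hJ
    induction J, hJ using Nat.le_induction with
    | base =>
        rw [Finset.Icc_self, Finset.sum_singleton]
        have h0 : (1 : ℝ) ≤ j0 := by exact_mod_cast hj
        have : (2 : ℝ) / j0 - 2 / (j0 + 1) = 2 / (j0 * (j0 + 1)) := by field_simp; ring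
        rw [this, div_le_div_iff₀ (by positivity) (by positivity)]
        nlinarith
    | succ J hJ ih =>
        rw [Finset.sum_Icc_succ_top (by omega)]
        have h0 : (1 : ℝ) ≤ J := by exact_mod_cast hj.trans hJ
        have h1 : (1 : ℝ) / (((J + 1 : ℕ) : ℝ)) ^ 2 ≤
            (2 : ℝ) / ((J : ℝ) + 1) - (2 : ℝ) / (((J + 1 : ℕ) : ℝ) + 1) := by
          push_cast
          have : (2 : ℝ) / ((J : ℝ) + 1) - 2 / ((J : ℝ) + 1 + 1) =
              2 / (((J : ℝ) + 1) * ((J : ℝ) + 1 + 1)) := by field_simp; ring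
          rw [this, div_le_div_iff₀ (by positivity) (by positivity)]
          nlinarith
        linarith
  by_cases hJ : j0 ≤ J
  · have h1 := h J hJ
    have h2 : (0 : ℝ) ≤ 2 / (J + 1) := by positivity
    linarith
  · rw [Finset.Icc_eq_empty hJ, Finset.sum_empty]
    positivity

/-- The constant. -/
noncomputable def CC (d : ℕ) : ℝ :=
  8 ^ Fintype.card (Mono d) * (10 + 4 * C1 d ^ 2) * (288 / Real.log 2 ^ 5)

lemma term_bound {D c l : ℝ} (hD : 0 ≤ D) (hl : 0 < l) {j : ℕ} (hj : 1 ≤ j)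
    (h : c * (2 ^ j * ((j : ℝ) * l) ^ 6) ≤
      (((j + 1 : ℕ) : ℝ) + 1) ^ 2 * (D * ((((j + 1 : ℕ) : ℝ)) ^ 2 * 2 ^ (j + 1)))) :
    c ≤ D * (72 / l ^ 6) * (1 / (j : ℝ) ^ 2) := by
  have hj' : (1 : ℝ) ≤ j := by exact_mod_cast hj
  have hj0 : (0 : ℝ) < j := by linarith
  have h2 : (0 : ℝ) < 2 ^ j := by positivity
  have h3 : 0 < (2 : ℝ) ^ j * ((j : ℝ) * l) ^ 6 := by positivity
  rw [← le_div_iff₀ h3] at h
  refine h.trans ?_
  rw [div_le_iff₀ h3]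
  have e1 : D * (72 / l ^ 6) * (1 / (j : ℝ) ^ 2) * (2 ^ j * ((j : ℝ) * l) ^ 6) =
      D * (72 * (j : ℝ) ^ 4 * 2 ^ j) := by
    field_simp
  rw [e1]
  push_cast
  have e2 : ((j : ℝ) + 1 + 1) ^ 2 ≤ 9 * (j : ℝ) ^ 2 := by nlinarith
  have e3 : ((j : ℝ) + 1) ^ 2 ≤ 4 * (j : ℝ) ^ 2 := by nlinarith
  have e4 : ((j : ℝ) + 1 + 1) ^ 2 * ((j : ℝ) + 1) ^ 2 ≤ 36 * (j : ℝ) ^ 4 := by
    calc _ ≤ (9 * (j : ℝ) ^ 2) * (4 * (j : ℝ) ^ 2) := mul_le_mul e2 e3 (by positivity) (by positivity)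
      _ = _ := by ring
  calc ((j : ℝ) + 1 + 1) ^ 2 * (D * (((j : ℝ) + 1) ^ 2 * 2 ^ (j + 1))) =
      D * (((j : ℝ) + 1 + 1) ^ 2 * ((j : ℝ) + 1) ^ 2 * (2 * 2 ^ j)) := by rw [pow_succ]; ring
    _ ≤ D * (36 * (j : ℝ) ^ 4 * (2 * 2 ^ j)) := by
        apply mul_le_mul_of_nonneg_left _ hD
        exact mul_le_mul_of_nonneg_right e4 (by positivity)
    _ = _ := by ring

open Classical in
lemma bad_level {d : ℕ} (hd : 1 ≤ d) (K B : ℕ) (hK : 1 ≤ K) (hKB : K ^ 2 ≤ B) {j : ℕ}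
    (hj : 1 ≤ j) :
    (((box d B).filter fun a =>
      (2 : ℝ) ^ j * ((j : ℝ) * Real.log 2) ^ 6 < RM (xx K a) (j + 1) 0).card : ℝ) ≤
      AA d B * (10 + 4 * C1 d ^ 2) * (72 / Real.log 2 ^ 6) * (1 / (j : ℝ) ^ 2) := by
  have hl : 0 < Real.log 2 := Real.log_pos (by norm_num)
  have hD : 0 ≤ AA d B * (10 + 4 * C1 d ^ 2) := by
    have := AA_nonneg d B
    positivity
  apply term_bound hD hl hj
  have h1 := moment_RM hd K B hK hKB (j + 1)
  have h2 : (((box d B).filter fun a =>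
      (2 : ℝ) ^ j * ((j : ℝ) * Real.log 2) ^ 6 < RM (xx K a) (j + 1) 0).card : ℝ) *
      ((2 : ℝ) ^ j * ((j : ℝ) * Real.log 2) ^ 6) ≤ ∑ a ∈ box d B, RM (xx K a) (j + 1) 0 := by
    rw [← nsmul_eq_mul, ← Finset.sum_const]
    refine (Finset.sum_le_sum fun a ha => (Finset.mem_filter.1 ha).2.le).trans ?_
    exact Finset.sum_le_sum_of_subset_of_nonneg (Finset.filter_subset _ _)
      fun a _ _ => RM_nonneg _ _ _
  refine (h2.trans h1).trans (le_of_eq ?_)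
  ring

lemma exceed {d : ℕ} {K T : ℕ} (hT : 2 ≤ T) (hTK : T ≤ K) {a : Mono d → ℤ}
    (h : Real.log T ^ 3 / Real.sqrt T <
      |average T (form a) - Chebyshev.theta (T : ℝ) / T|) :
    (2 : ℝ) ^ (Nat.log 2 T) * (((Nat.log 2 T : ℕ) : ℝ) * Real.log 2) ^ 6 <
      RM (xx K a) (Nat.log 2 T + 1) 0 := by
  have hT0 : (0 : ℝ) < T := by exact_mod_cast (by omega : 0 < T)
  have hT1 : (1 : ℝ) ≤ T := by exact_mod_cast (by omega : 1 ≤ T)
  have h1 : T + 1 ≤ 2 ^ (Nat.log 2 T + 1) := Nat.lt_pow_succ_log_self (by norm_num) T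
  have h2 : 2 ^ Nat.log 2 T ≤ T := Nat.pow_log_le_self 2 (by omega)
  have h3 := IS_le_RM (xx K a) (Nat.log 2 T + 1) 0 (T + 1) h1
  rw [IS_xx, PI_eq_PR hTK] at h3
  refine lt_of_lt_of_le ?_ h3
  rw [average_eq, abs_div, abs_of_pos hT0] at h
  set X := ∑ p ∈ PR T, Real.log p * tm p a with hX
  have hs : 0 < Real.sqrt T := Real.sqrt_pos.2 hT0
  have hlog : 0 ≤ Real.log T := Real.log_nonneg hT1
  rw [div_lt_div_iff₀ hs hT0] at h
  have h5 : (Real.log T ^ 3 * T) ^ 2 < (|X| * Real.sqrt T) ^ 2 :=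
    pow_lt_pow_left₀ h (by positivity) (by norm_num)
  rw [mul_pow, mul_pow, sq_abs, Real.sq_sqrt hT0.le] at h5
  have h6 : (T : ℝ) * Real.log T ^ 6 < X ^ 2 := by
    have : (Real.log T ^ 3) ^ 2 * (T : ℝ) ^ 2 = T * Real.log T ^ 6 * T := by ring
    rw [this] at h5
    exact lt_of_mul_lt_mul_right h5 hT0.le
  refine lt_of_le_of_lt ?_ h6
  have h7 : ((Nat.log 2 T : ℕ) : ℝ) * Real.log 2 ≤ Real.log T := by
    rw [← Real.log_pow]
    exact Real.log_le_log (by positivity) (by exact_mod_cast h2)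
  have h8 : (0 : ℝ) ≤ ((Nat.log 2 T : ℕ) : ℝ) * Real.log 2 :=
    mul_nonneg (Nat.cast_nonneg _) (Real.log_nonneg (by norm_num))
  exact mul_le_mul (by exact_mod_cast h2) (pow_le_pow_left₀ h8 h7 6) (pow_nonneg h8 6) hT0.le

open Classical in
theorem count {d : ℕ} (hd : 1 ≤ d) (T₀ B : ℕ) (hT₀ : 2 ≤ T₀) :
    (((box d B).filter fun a => ∃ T : ℕ, T₀ ≤ T ∧ T ^ 2 ≤ B ∧
      Real.log T ^ 3 / Real.sqrt T <
        |average T (form a) - Chebyshev.theta (T : ℝ) / T|).card : ℝ) ≤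
      CC d / Real.log T₀ * (box d B).card := by
  have hl : 0 < Real.log 2 := Real.log_pos (by norm_num)
  have hT0 : (2 : ℝ) ≤ T₀ := by exact_mod_cast hT₀
  have hlT : 0 < Real.log T₀ := Real.log_pos (by linarith)
  have hCC : 0 ≤ CC d := by
    unfold CC
    positivity
  by_cases hB : B = 0
  · have : ((box d B).filter fun a => ∃ T : ℕ, T₀ ≤ T ∧ T ^ 2 ≤ B ∧
      Real.log T ^ 3 / Real.sqrt T <
        |average T (form a) - Chebyshev.theta (T : ℝ) / T|) = ∅ := by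
      rw [Finset.filter_eq_empty_iff]
      rintro a _ ⟨T, h1, h2, _⟩
      rw [hB] at h2
      have : T ^ 2 ≥ 2 ^ 2 := Nat.pow_le_pow_left (hT₀.trans h1) 2
      omega
    rw [this, Finset.card_empty, Nat.cast_zero]
    positivity
  obtain ⟨K, hK⟩ : ∃ K, K = Nat.sqrt B := ⟨_, rfl⟩
  have hK1 : 1 ≤ K := by rw [hK, Nat.le_sqrt']; omega
  have hKB : K ^ 2 ≤ B := by rw [hK]; exact Nat.sqrt_le' B
  obtain ⟨j0, hj0⟩ : ∃ j0, j0 = Nat.log 2 T₀ := ⟨_, rfl⟩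
  have hj1 : 1 ≤ j0 := by
    rw [hj0]; exact Nat.log_pos (by norm_num) hT₀
  set D : ℝ := AA d B * (10 + 4 * C1 d ^ 2) * (72 / Real.log 2 ^ 6) with hD
  have hD0 : 0 ≤ D := by
    have := AA_nonneg d B
    positivity
  have hsub : ((box d B).filter fun a => ∃ T : ℕ, T₀ ≤ T ∧ T ^ 2 ≤ B ∧
      Real.log T ^ 3 / Real.sqrt T <
        |average T (form a) - Chebyshev.theta (T : ℝ) / T|) ⊆
      (Icc j0 (Nat.log 2 K)).biUnion fun j => (box d B).filter fun a =>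
        (2 : ℝ) ^ j * ((j : ℝ) * Real.log 2) ^ 6 < RM (xx K a) (j + 1) 0 := by
    intro a ha
    obtain ⟨ha1, T, h1, h2, h3⟩ := Finset.mem_filter.1 ha
    have hTK : T ≤ K := by rw [hK, Nat.le_sqrt']; exact h2
    rw [Finset.mem_biUnion]
    refine ⟨Nat.log 2 T, ?_, ?_⟩
    · rw [Finset.mem_Icc, hj0]
      exact ⟨Nat.log_mono_right h1, Nat.log_mono_right hTK⟩
    · rw [Finset.mem_filter]
      exact ⟨ha1, exceed (hT₀.trans h1) hTK h3⟩
  have h1 : (((box d B).filter fun a => ∃ T : ℕ, T₀ ≤ T ∧ T ^ 2 ≤ B ∧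
      Real.log T ^ 3 / Real.sqrt T <
        |average T (form a) - Chebyshev.theta (T : ℝ) / T|).card : ℝ) ≤
      ∑ j ∈ Icc j0 (Nat.log 2 K), D * (1 / (j : ℝ) ^ 2) := by
    have h2 := (Finset.card_le_card hsub).trans Finset.card_biUnion_le
    have h3 : (((box d B).filter fun a => ∃ T : ℕ, T₀ ≤ T ∧ T ^ 2 ≤ B ∧
      Real.log T ^ 3 / Real.sqrt T <
        |average T (form a) - Chebyshev.theta (T : ℝ) / T|).card : ℝ) ≤
        ∑ j ∈ Icc j0 (Nat.log 2 K), (((box d B).filter fun a =>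
        (2 : ℝ) ^ j * ((j : ℝ) * Real.log 2) ^ 6 < RM (xx K a) (j + 1) 0).card : ℝ) := by
      exact_mod_cast h2
    refine h3.trans (Finset.sum_le_sum fun j hj => ?_)
    exact bad_level hd K B hK1 hKB (hj1.trans (Finset.mem_Icc.1 hj).1)
  refine h1.trans ?_
  rw [← Finset.mul_sum]
  refine (mul_le_mul_of_nonneg_left (sum_inv_sq j0 _ hj1) hD0).trans ?_
  have h5 : (2 : ℝ) / j0 ≤ 4 * Real.log 2 / Real.log T₀ := by
    have hj0' : (1 : ℝ) ≤ j0 := by exact_mod_cast hj1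
    rw [div_le_div_iff₀ (by linarith) hlT]
    have h6 : Real.log T₀ ≤ ((j0 : ℝ) + 1) * Real.log 2 := by
      have h7 : (T₀ : ℝ) ≤ 2 ^ (j0 + 1) := by
        have := (Nat.lt_pow_succ_log_self (b := 2) (by norm_num) T₀).le
        rw [← hj0] at this
        exact_mod_cast this
      have h8 := Real.log_le_log (by linarith) h7
      rw [Real.log_pow] at h8
      push_cast at h8
      exact h8
    nlinarith
  refine (mul_le_mul_of_nonneg_left h5 hD0).trans (le_of_eq ?_)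
  rw [hD]
  unfold CC AA
  field_simp
  ring

end Pool.Agent.Helper29.TT
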