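import Mathlib

set_option autoImplicit false

namespace Pool.Agent.Helper29.TT

open MvPolynomial

/-- The exponent vectors of the monomials of degree `d` in four variables. -/
abbrev Mono (d : ℕ) : Finset (Fin 4 →₀ ℕ) := Finset.finsuppAntidiag Finset.univ d

/-- The form of degree `d` with coefficient vector `a`. -/
noncomputable def form {d : ℕ} (a : Mono d → ℤ) : MvPolynomial (Fin 4) ℤ :=
  ∑ m : Mono d, monomial (m : Fin 4 →₀ ℕ) (a m)

/-- The coefficient vectors with entries in `[-B, B]`. -/
noncomputable def box (d B : ℕ) : Finset (Mono d → ℤ) :=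
  Fintype.piFinset fun _ => Finset.Icc (-(B : ℤ)) B

/-- The number of points over the field with `p` elements of the surface `F = 0` in projective
space: the number of nonzero solutions divided by `p - 1`. -/
noncomputable def points (p : ℕ) (F : MvPolynomial (Fin 4) ℤ) : ℝ :=
  ((Nat.card {x : Fin 4 → ZMod p // aeval x F = 0} : ℝ) - 1) / ((p : ℝ) - 1)

/-- The trace of Frobenius on the second cohomology group of the surface `F = 0`, by the trace
formula: the number of points minus `p ^ 2 + 1`. -/
noncomputable def bp (p : ℕ) (F : MvPolynomial (Fin 4) ℤ) : ℝ :=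
  points p F - (p : ℝ) ^ 2 - 1

/-- `F` modulo `p` defines a smooth surface: it has no singular point over any field of
characteristic `p`. -/
def Good (p : ℕ) (F : MvPolynomial (Fin 4) ℤ) : Prop :=
  ∀ (K : Type) [Field K] [CharP K p] (z : Fin 4 → K),
    aeval z F = 0 → (∀ i, aeval z (pderiv i F) = 0) → z = 0

open Classical in
/-- The average of the Tauberian Tate conjecture over the primes of good reduction up to `T`. -/
noncomputable def average (T : ℕ) (F : MvPolynomial (Fin 4) ℤ) : ℝ :=
  (∑ p ∈ (Finset.Icc 1 T).filter (fun p => p.Prime ∧ Good p F),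
    bp p F * Real.log p / p) / T

end Pool.Agent.Helper29.TT
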