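import Pool.Agent.Helper29.TT.Defs

set_option autoImplicit false

namespace Pool.Agent.Helper29.TT

open Finset

section Fejer

variable {M : ℕ} [NeZero M] (H : ℕ)

/-- The Fejer kernel on the integers modulo `M`, as a complex number. -/
noncomputable def kerC (a : ZMod M) : ℂ :=
  ∑ h ∈ range (H + 1), ZMod.stdAddChar ((h : ZMod M) * a)

/-- The Fejer kernel on the integers modulo `M`. -/
noncomputable def ker (a : ZMod M) : ℝ := ‖kerC H a‖ ^ 2

lemma ker_nonneg (a : ZMod M) : 0 ≤ ker H a := sq_nonneg _

lemma ker_eq (a : ZMod M) : (ker H a : ℂ) =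
    ∑ h ∈ range (H + 1), ∑ h' ∈ range (H + 1),
      ZMod.stdAddChar (((h : ZMod M) - (h' : ZMod M)) * a) := by
  unfold ker
  push_cast
  rw [← Complex.conj_mul', mul_comm]
  unfold kerC
  rw [map_sum, Finset.sum_mul_sum]
  refine Finset.sum_congr rfl fun h _ => Finset.sum_congr rfl fun h' _ => ?_
  rw [sub_mul, sub_eq_add_neg, AddChar.map_add_eq_mul, AddChar.map_neg_eq_conj]

variable {A : Type} [AddCommGroup A] [DecidableEq A]

lemma sum_char_fiber (π : ZMod M →+ A) (n : ZMod M) (hn : π n = 0) (s : ZMod M)
    (hs : s * n ≠ 0) (r : A) :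
    ∑ a ∈ (univ : Finset (ZMod M)).filter (fun a => π a = r),
      (ZMod.stdAddChar (s * a) : ℂ) = 0 := by
  set G := ∑ a ∈ (univ : Finset (ZMod M)).filter (fun a => π a = r),
      (ZMod.stdAddChar (s * a) : ℂ) with hG
  have h1 : G = (ZMod.stdAddChar (s * n) : ℂ) * G := by
    rw [hG, Finset.mul_sum]
    symm
    apply Finset.sum_bij (fun a _ => n + a)
    · intro a ha
      rw [Finset.mem_filter] at ha ⊢
      refine ⟨Finset.mem_univ _, ?_⟩
      rw [map_add, hn, zero_add]; exact ha.2
    · intro a _ b _ h; exact add_left_cancel h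
    · intro b hb
      rw [Finset.mem_filter] at hb
      refine ⟨-n + b, ?_, by simp⟩
      rw [Finset.mem_filter]
      refine ⟨Finset.mem_univ _, ?_⟩
      rw [map_add, map_neg, hn, neg_zero, zero_add]; exact hb.2
    · intro a _
      rw [mul_add, AddChar.map_add_eq_mul]
  have h2 : (ZMod.stdAddChar (s * n) : ℂ) ≠ 1 := by
    intro h
    apply hs
    apply ZMod.injective_stdAddChar
    rw [h, AddChar.map_zero_eq_one]
  have h3 : ((ZMod.stdAddChar (s * n) : ℂ) - 1) * G = 0 := by
    rw [sub_mul, one_mul, ← h1, sub_self]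
  rcases mul_eq_zero.1 h3 with h4 | h4
  · exact absurd (sub_eq_zero.1 h4) h2
  · exact h4

lemma sum_ker_fiber (π : ZMod M →+ A) (n : ℕ) (hn : π (n : ZMod M) = 0) (hn0 : 0 < n)
    (hnH : n * H < M) (r : A) :
    ∑ a ∈ (univ : Finset (ZMod M)).filter (fun a => π a = r), ker H a =
      (H + 1) * ((univ : Finset (ZMod M)).filter (fun a => π a = r)).card := by
  have key : (((∑ a ∈ (univ : Finset (ZMod M)).filter (fun a => π a = r), ker H a : ℝ)) : ℂ) =
      (H + 1) * ((univ : Finset (ZMod M)).filter (fun a => π a = r)).card := by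
    push_cast
    simp_rw [ker_eq]
    rw [Finset.sum_comm]
    have h1 : ∀ h ∈ range (H + 1), ∑ a ∈ (univ : Finset (ZMod M)).filter (fun a => π a = r),
        ∑ h' ∈ range (H + 1), (ZMod.stdAddChar (((h : ZMod M) - (h' : ZMod M)) * a) : ℂ) =
        ((univ : Finset (ZMod M)).filter (fun a => π a = r)).card := by
      intro h hh
      rw [Finset.sum_comm, Finset.sum_eq_single h]
      · simp
      · intro h' hh' hne
        apply sum_char_fiber π (n : ZMod M) hn
        rw [Finset.mem_range] at hh hh'
        intro h0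
        have h2 : ((((h : ℤ) - (h' : ℤ)) * (n : ℤ) : ℤ) : ZMod M) = 0 := by
          push_cast; exact h0
        rw [ZMod.intCast_zmod_eq_zero_iff_dvd] at h2
        have h3 : ((h : ℤ) - (h' : ℤ)) * (n : ℤ) = 0 := by
          apply Int.eq_zero_of_abs_lt_dvd h2
          rw [abs_mul]
          have h4 : |(h : ℤ) - (h' : ℤ)| ≤ H := by rw [abs_le]; constructor <;> omega
          have h5 : |(n : ℤ)| = n := abs_of_nonneg (by positivity)
          rw [h5]
          calc |(h : ℤ) - (h' : ℤ)| * (n : ℤ) ≤ H * n :=
                mul_le_mul_of_nonneg_right h4 (by positivity)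
            _ < M := by rw [mul_comm]; exact_mod_cast hnH
        rcases mul_eq_zero.1 h3 with h6 | h6
        · apply hne; omega
        · omega
      · intro h'; exact absurd hh h'
    rw [Finset.sum_congr rfl h1, Finset.sum_const, Finset.card_range, nsmul_eq_mul]
    push_cast
    ring
  exact_mod_cast key

/-- All fibres of a surjection have the same size. -/
lemma card_fiber [Fintype A] (π : ZMod M →+ A) (hπ : Function.Surjective π) (r : A) :
    (((univ : Finset (ZMod M)).filter (fun a => π a = r)).card : ℝ) =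
      M / Fintype.card A := by
  have h1 : ∀ r' : A, ((univ : Finset (ZMod M)).filter (fun a => π a = r')).card =
      ((univ : Finset (ZMod M)).filter (fun a => π a = r)).card := by
    intro r'
    exact AddMonoidHom.card_fiber_eq_of_mem_range π (hπ r') (hπ r)
  have h2 : Fintype.card (ZMod M) = ∑ r' : A,
      ((univ : Finset (ZMod M)).filter (fun a => π a = r')).card := by
    rw [← Finset.card_univ]
    exact Finset.card_eq_sum_card_fiberwise fun a _ => Finset.mem_univ _
  rw [Finset.sum_congr rfl fun r' _ => h1 r', Finset.sum_const, Finset.card_univ, smul_eq_mul,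
    ZMod.card] at h2
  have hA : (0 : ℝ) < Fintype.card A := by exact_mod_cast Fintype.card_pos
  rw [eq_div_iff hA.ne', mul_comm]
  exact_mod_cast h2.symm

end Fejer

end Pool.Agent.Helper29.TT
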