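import Pool.Agent.Helper29.TT.Main
import Pool.Agent.Helper29.TT.Maximal

set_option autoImplicit false

namespace Pool.Agent.Helper29.TT

open Finset MvPolynomial

/-- The primes up to `T`. -/
def PR (T : ℕ) : Finset ℕ := (Icc 1 T).filter Nat.Prime

lemma average_eq {d : ℕ} (T : ℕ) (a : Mono d → ℤ) :
    average T (form a) - Chebyshev.theta (T : ℝ) / T =
      (∑ p ∈ PR T, Real.log p * tm p a) / T := by
  classical
  have h1 : Chebyshev.theta (T : ℝ) = ∑ p ∈ PR T, Real.log p := by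
    rw [Chebyshev.theta_eq_sum_Icc, Nat.floor_natCast]
    apply Finset.sum_congr _ fun _ _ => rfl
    ext p
    unfold PR
    rw [Finset.mem_filter, Finset.mem_filter, Finset.mem_Icc, Finset.mem_Icc]
    constructor
    · rintro ⟨⟨_, h⟩, hp⟩; exact ⟨⟨hp.one_le, h⟩, hp⟩
    · rintro ⟨⟨_, h⟩, hp⟩; exact ⟨⟨Nat.zero_le _, h⟩, hp⟩
  have h2 : ∑ p ∈ (Icc 1 T).filter (fun p => p.Prime ∧ Good p (form a)),
      bp p (form a) * Real.log p / p =
      ∑ p ∈ PR T, if Good p (form a) then bp p (form a) * Real.log p / p else 0 := by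
    unfold PR
    rw [← Finset.sum_filter, Finset.filter_filter]
  unfold average
  rw [h1, ← sub_div]
  congr 1
  have h3 : (∑ p ∈ (Icc 1 T).filter (fun p => p.Prime ∧ Good p (form a)),
      bp p (form a) * Real.log p / p) - ∑ p ∈ PR T, Real.log p =
      ∑ p ∈ PR T, Real.log p * tm p a := by
    rw [h2, ← Finset.sum_sub_distrib]
    refine Finset.sum_congr rfl fun p _ => ?_
    unfold tm
    by_cases h : Good p (form a)
    · rw [if_pos h, if_pos h]; ring
    · rw [if_neg h, if_neg h]; ring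
  convert h3 using 3

/-- The sequence of the terms up to `K`. -/
noncomputable def xx (K : ℕ) {d : ℕ} (a : Mono d → ℤ) (i : ℕ) : ℝ :=
  if i.Prime ∧ i ≤ K then Real.log i * tm i a else 0

/-- The primes in an interval, up to `K`. -/
def PI (K b n : ℕ) : Finset ℕ := (Ico b (b + n)).filter fun i => i.Prime ∧ i ≤ K

lemma IS_xx (K : ℕ) {d : ℕ} (a : Mono d → ℤ) (b n : ℕ) :
    IS (xx K a) b n = ∑ p ∈ PI K b n, Real.log p * tm p a := by
  unfold IS xx PI
  rw [Finset.sum_filter]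

/-- The constant of the forms of degree `d`. -/
noncomputable def C1 (d : ℕ) : ℝ := 6 + 2 * MM d

lemma C1_nonneg (d : ℕ) : 0 ≤ C1 d := by
  unfold C1
  have : (0 : ℝ) ≤ MM d := Nat.cast_nonneg _
  linarith

/-- The superadditive majorant. -/
noncomputable def gb (A C : ℝ) (K b n : ℕ) : ℝ :=
  A * (10 * ∑ p ∈ PI K b n, Real.log p ^ 2 + (∑ p ∈ PI K b n, |Real.log p| * (C / Real.sqrt p)) ^ 2)

lemma PI_split (K b n m : ℕ) (f : ℕ → ℝ) :
    ∑ p ∈ PI K b (n + m), f p = ∑ p ∈ PI K b n, f p + ∑ p ∈ PI K (b + n) m, f p := by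
  unfold PI
  rw [Finset.sum_filter, Finset.sum_filter, Finset.sum_filter]
  exact IS_split _ b n m

lemma gb_nonneg {A C : ℝ} (hA : 0 ≤ A) (K b n : ℕ) : 0 ≤ gb A C K b n := by
  unfold gb
  have h6 : 0 ≤ ∑ p ∈ PI K b n, Real.log p ^ 2 := Finset.sum_nonneg fun p _ => sq_nonneg _
  exact mul_nonneg hA (add_nonneg (mul_nonneg (by norm_num) h6) (sq_nonneg _))

lemma gb_super {A C : ℝ} (hA : 0 ≤ A) (hC : 0 ≤ C) (K b n m : ℕ) :
    gb A C K b n + gb A C K (b + n) m ≤ gb A C K b (n + m) := by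
  unfold gb
  rw [PI_split, PI_split]
  have h1 : 0 ≤ ∑ p ∈ PI K b n, |Real.log p| * (C / Real.sqrt p) :=
    Finset.sum_nonneg fun p _ => by positivity
  have h2 : 0 ≤ ∑ p ∈ PI K (b + n) m, |Real.log p| * (C / Real.sqrt p) :=
    Finset.sum_nonneg fun p _ => by positivity
  rw [← mul_add]
  apply mul_le_mul_of_nonneg_left _ hA
  nlinarith [mul_nonneg h1 h2]

lemma sum_inv_sqrt (n : ℕ) : ∑ i ∈ Icc 1 n, 1 / Real.sqrt i ≤ 2 * Real.sqrt n := by
  induction n with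
  | zero => simp
  | succ n ih =>
      rw [Finset.sum_Icc_succ_top (by omega)]
      have h1 : 0 < Real.sqrt ((n + 1 : ℕ) : ℝ) := Real.sqrt_pos.2 (by positivity)
      have h2 : 0 ≤ Real.sqrt (n : ℝ) := Real.sqrt_nonneg _
      have h3 : Real.sqrt ((n + 1 : ℕ) : ℝ) ^ 2 = n + 1 := by
        rw [Real.sq_sqrt (by positivity)]; push_cast; ring
      have h4 : Real.sqrt (n : ℝ) ^ 2 = n := Real.sq_sqrt (by positivity)
      have h5 : 1 / Real.sqrt ((n + 1 : ℕ) : ℝ) ≤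
          2 * Real.sqrt ((n + 1 : ℕ) : ℝ) - 2 * Real.sqrt (n : ℝ) := by
        rw [div_le_iff₀ h1]
        nlinarith [sq_nonneg (Real.sqrt ((n + 1 : ℕ) : ℝ) - Real.sqrt (n : ℝ))]
      linarith

/-- The bound for the sums over the primes up to `n`. -/
lemma prime_sums {A C L : ℝ} (hC : 0 ≤ C) (hL : 0 ≤ L) (n : ℕ) (P : Finset ℕ)
    (hA : 0 ≤ A) (hP : ∀ p ∈ P, 1 ≤ p ∧ p ≤ n) (hl : ∀ p ∈ P, Real.log p ≤ L) :
    A * (10 * ∑ p ∈ P, Real.log p ^ 2 + (∑ p ∈ P, |Real.log p| * (C / Real.sqrt p)) ^ 2) ≤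
      A * ((10 + 4 * C ^ 2) * (L ^ 2 * n)) := by
  have hlog : ∀ p ∈ P, 0 ≤ Real.log p := by
    intro p hp
    exact Real.log_nonneg (by exact_mod_cast (hP p hp).1)
  have hcard : (P.card : ℝ) ≤ n := by
    have h : P ⊆ Icc 1 n := fun p hp => Finset.mem_Icc.2 (hP p hp)
    have := Finset.card_le_card h
    rw [Nat.card_Icc] at this
    exact_mod_cast this
  have h1 : ∑ p ∈ P, Real.log p ^ 2 ≤ L ^ 2 * n := by
    calc _ ≤ ∑ _p ∈ P, L ^ 2 :=
          Finset.sum_le_sum fun p hp => pow_le_pow_left₀ (hlog p hp) (hl p hp) 2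
      _ = P.card * L ^ 2 := by rw [Finset.sum_const, nsmul_eq_mul]
      _ ≤ n * L ^ 2 := mul_le_mul_of_nonneg_right hcard (sq_nonneg _)
      _ = _ := mul_comm _ _
  have h2 : ∑ p ∈ P, |Real.log p| * (C / Real.sqrt p) ≤ L * C * (2 * Real.sqrt n) := by
    calc _ ≤ ∑ p ∈ P, L * C * (1 / Real.sqrt p) := by
          refine Finset.sum_le_sum fun p hp => ?_
          rw [abs_of_nonneg (hlog p hp)]
          have : Real.log p * (C / Real.sqrt p) ≤ L * (C / Real.sqrt p) :=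
            mul_le_mul_of_nonneg_right (hl p hp) (by positivity)
          calc _ ≤ L * (C / Real.sqrt p) := this
            _ = _ := by ring
      _ = L * C * ∑ p ∈ P, 1 / Real.sqrt p := by rw [Finset.mul_sum]
      _ ≤ L * C * ∑ p ∈ Icc 1 n, 1 / Real.sqrt p := by
          apply mul_le_mul_of_nonneg_left _ (by positivity)
          apply Finset.sum_le_sum_of_subset_of_nonneg
          · exact fun p hp => Finset.mem_Icc.2 (hP p hp)
          · intro p _ _; positivity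
      _ ≤ _ := mul_le_mul_of_nonneg_left (sum_inv_sqrt n) (by positivity)
  have h3 : 0 ≤ ∑ p ∈ P, |Real.log p| * (C / Real.sqrt p) :=
    Finset.sum_nonneg fun p _ => by positivity
  have h4 : (∑ p ∈ P, |Real.log p| * (C / Real.sqrt p)) ^ 2 ≤ 4 * C ^ 2 * (L ^ 2 * n) := by
    calc _ ≤ (L * C * (2 * Real.sqrt n)) ^ 2 := pow_le_pow_left₀ h3 h2 2
      _ = 4 * C ^ 2 * (L ^ 2 * Real.sqrt n ^ 2) := by ring
      _ = _ := by rw [Real.sq_sqrt (Nat.cast_nonneg n)]
  apply mul_le_mul_of_nonneg_left _ hA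
  linarith

/-- The scale. -/
noncomputable def AA (d B : ℕ) : ℝ := 8 ^ Fintype.card (Mono d) * (box d B).card

lemma AA_nonneg (d B : ℕ) : 0 ≤ AA d B := by
  unfold AA
  exact mul_nonneg (pow_nonneg (by norm_num) _) (Nat.cast_nonneg _)

lemma moment_T {d : ℕ} (hd : 1 ≤ d) (T B : ℕ) (hT : 1 ≤ T) (hTB : T ^ 2 ≤ B) :
    ∑ a ∈ box d B, (∑ p ∈ PR T, Real.log p * tm p a) ^ 2 ≤
      AA d B * ((10 + 4 * C1 d ^ 2) * (Real.log T ^ 2 * T)) := by
  have hP : ∀ p ∈ PR T, p.Prime ∧ p ≤ T := by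
    intro p hp
    unfold PR at hp
    rw [Finset.mem_filter, Finset.mem_Icc] at hp
    exact ⟨hp.2, hp.1.2⟩
  refine (second_moment hd T B hT hTB (PR T) hP fun p => Real.log p).trans ?_
  exact prime_sums (C1_nonneg d) (Real.log_nonneg (by exact_mod_cast hT)) T (PR T) (AA_nonneg d B)
    (fun p hp => ⟨(hP p hp).1.one_le, (hP p hp).2⟩)
    (fun p hp => Real.log_le_log (by exact_mod_cast (hP p hp).1.pos)
      (by exact_mod_cast (hP p hp).2))

lemma moment_IS {d : ℕ} (hd : 1 ≤ d) (K B : ℕ) (hK : 1 ≤ K) (hKB : K ^ 2 ≤ B) (b n : ℕ) :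
    ∑ a ∈ box d B, IS (xx K a) b n ^ 2 ≤ gb (AA d B) (C1 d) K b n := by
  have hP : ∀ p ∈ PI K b n, p.Prime ∧ p ≤ K := by
    intro p hp
    unfold PI at hp
    exact (Finset.mem_filter.1 hp).2
  simp_rw [IS_xx]
  exact second_moment hd K B hK hKB (PI K b n) hP fun p => Real.log p

lemma moment_RM {d : ℕ} (hd : 1 ≤ d) (K B : ℕ) (hK : 1 ≤ K) (hKB : K ^ 2 ≤ B) (k : ℕ) :
    ∑ a ∈ box d B, RM (xx K a) k 0 ≤
      ((k : ℝ) + 1) ^ 2 * (AA d B * ((10 + 4 * C1 d ^ 2) * ((k : ℝ) ^ 2 * 2 ^ k))) := by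
  refine (sum_RM (box d B) (fun a => xx K a) (gb (AA d B) (C1 d) K)
    (gb_nonneg (AA_nonneg d B) K) (gb_super (AA_nonneg d B) (C1_nonneg d) K)
    (moment_IS hd K B hK hKB) k 0).trans ?_
  apply mul_le_mul_of_nonneg_left _ (by positivity)
  have h := prime_sums (A := AA d B) (C := C1 d) (L := (k : ℝ)) (C1_nonneg d) (Nat.cast_nonneg k)
    (2 ^ k) (PI K 0 (2 ^ k)) (AA_nonneg d B)
    (by
      intro p hp
      unfold PI at hp
      rw [Finset.mem_filter, Finset.mem_Ico] at hp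
      exact ⟨hp.2.1.one_le, by omega⟩)
    (by
      intro p hp
      unfold PI at hp
      rw [Finset.mem_filter, Finset.mem_Ico, zero_add] at hp
      have h1 : Real.log p ≤ Real.log ((2 : ℝ) ^ k) :=
        Real.log_le_log (by exact_mod_cast hp.2.1.pos) (by exact_mod_cast hp.1.2.le)
      rw [Real.log_pow] at h1
      have h2 : Real.log 2 ≤ 1 := by
        have := Real.log_two_lt_d9; linarith
      have h3 : (0 : ℝ) ≤ k := Nat.cast_nonneg k
      nlinarith)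
  push_cast at h
  exact h

end Pool.Agent.Helper29.TT
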