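import Pool.Agent.Helper29.TT.Bad

set_option autoImplicit false

namespace Pool.Agent.Helper29.TT

open Finset MvPolynomial

section Prime

variable {p : ℕ} [Fact p.Prime] {d : ℕ}

/-- The number of solutions. -/
noncomputable def cnt (u : Mono d → ZMod p) : ℕ :=
  ((univ : Finset (Fin 4 → ZMod p)).filter fun x => lf (ver d x) u = 0).card

/-- The sum of the centred indicators. -/
noncomputable def DD (u : Mono d → ZMod p) : ℝ :=
  ∑ x ∈ (univ : Finset (Fin 4 → ZMod p)).erase 0, ci (ver d x) u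

lemma ver_zero (hd : 1 ≤ d) : ver d (0 : Fin 4 → ZMod p) = 0 := by
  funext m
  have h := (Finset.mem_finsuppAntidiag.1 m.2).1
  have : ∃ i, (m : Fin 4 →₀ ℕ) i ≠ 0 := by
    by_contra hcon
    push Not at hcon
    have h0 : ∑ i, (m : Fin 4 →₀ ℕ) i = 0 := Finset.sum_eq_zero fun i _ => hcon i
    rw [h0] at h
    omega
  obtain ⟨i, hi⟩ := this
  unfold ver
  rw [Pi.zero_apply]
  apply Finset.prod_eq_zero (Finset.mem_univ i)
  rw [Pi.zero_apply, zero_pow hi]

lemma cnt_eq (hd : 1 ≤ d) (u : Mono d → ZMod p) :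
    (cnt u : ℝ) = 1 + DD u + ((p : ℝ) ^ 4 - 1) / p := by
  classical
  have h0 : (0 : Fin 4 → ZMod p) ∈ (univ : Finset (Fin 4 → ZMod p)).filter
      fun x => lf (ver d x) u = 0 := by
    rw [Finset.mem_filter]
    refine ⟨Finset.mem_univ _, ?_⟩
    rw [ver_zero hd]; simp
  have h1 : ((univ : Finset (Fin 4 → ZMod p)).erase 0).card = p ^ 4 - 1 := by
    rw [Finset.card_erase_of_mem (Finset.mem_univ _), Finset.card_univ, Fintype.card_fun,
      ZMod.card, Fintype.card_fin]
  have hp1 : 1 ≤ p ^ 4 := Nat.one_le_pow _ _ (Fact.out : p.Prime).pos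
  have h2 : (((univ : Finset (Fin 4 → ZMod p)).erase 0).card : ℝ) = (p : ℝ) ^ 4 - 1 := by
    rw [h1, Nat.cast_sub hp1]; push_cast; ring
  unfold DD ci
  rw [Finset.sum_sub_distrib, Finset.sum_const, nsmul_eq_mul, h2, ZMod.card]
  have h3 : (cnt u : ℝ) = 1 + ∑ x ∈ (univ : Finset (Fin 4 → ZMod p)).erase 0,
      (if lf (ver d x) u = 0 then (1 : ℝ) else 0) := by
    unfold cnt
    rw [Finset.card_filter]
    push_cast
    rw [← Finset.add_sum_erase _ _ (Finset.mem_univ (0 : Fin 4 → ZMod p))]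
    rw [if_pos (Finset.mem_filter.1 h0).2]
  rw [h3]
  ring

lemma sum_DD (hd : 1 ≤ d) : ∑ u : Mono d → ZMod p, DD u = 0 := by
  classical
  unfold DD
  rw [Finset.sum_comm]
  apply Finset.sum_eq_zero
  intro x hx
  exact sum_ci (ver_ne_zero hd (Finset.ne_of_mem_erase hx))

lemma sum_DD_sq (hd : 1 ≤ d) :
    ∑ u : Mono d → ZMod p, DD u ^ 2 ≤ 2 * (p : ℝ) ^ 4 * (p : ℝ) ^ Fintype.card (Mono d) := by
  classical
  have hp : (0 : ℝ) < p := by exact_mod_cast (Fact.out : p.Prime).pos
  set Q : ℝ := 2 * ((p : ℝ) ^ Fintype.card (Mono d) / p) with hQ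
  have hQ0 : 0 ≤ Q := by positivity
  have h1 : ∑ u : Mono d → ZMod p, DD u ^ 2 =
      ∑ x ∈ (univ : Finset (Fin 4 → ZMod p)).erase 0,
        ∑ y ∈ (univ : Finset (Fin 4 → ZMod p)).erase 0,
          ∑ u : Mono d → ZMod p, ci (ver d x) u * ci (ver d y) u := by
    unfold DD
    simp_rw [sq, Finset.sum_mul_sum]
    rw [Finset.sum_comm]
    refine Finset.sum_congr rfl fun x _ => ?_
    rw [Finset.sum_comm]
  rw [h1]
  have h2 : ∀ x ∈ (univ : Finset (Fin 4 → ZMod p)).erase 0,
      ∑ y ∈ (univ : Finset (Fin 4 → ZMod p)).erase 0,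
          ∑ u : Mono d → ZMod p, ci (ver d x) u * ci (ver d y) u ≤ p * Q := by
    intro x hx
    have hx0 := Finset.ne_of_mem_erase hx
    have h3 : ∀ y ∈ (univ : Finset (Fin 4 → ZMod p)).erase 0,
        ∑ u : Mono d → ZMod p, ci (ver d x) u * ci (ver d y) u ≤
          if ∃ c : ZMod p, y = c • x then Q else 0 := by
      intro y hy
      have hy0 := Finset.ne_of_mem_erase hy
      split_ifs with h
      · have := sum_ci_mul_le (w1 := ver d x) (w2 := ver d y) (ver_ne_zero hd hx0)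
        rw [ZMod.card] at this
        exact this
      · push Not at h
        exact (sum_ci_mul (ver_ne_zero hd hx0) (ver_ne_zero hd hy0)
          (ver_indep hd hx0 hy0 h)).le
    refine (Finset.sum_le_sum h3).trans ?_
    rw [← Finset.sum_filter, Finset.sum_const, nsmul_eq_mul]
    apply mul_le_mul_of_nonneg_right _ hQ0
    have h4 : (((univ : Finset (Fin 4 → ZMod p)).erase 0).filter
        fun y => ∃ c : ZMod p, y = c • x) ⊆ (univ : Finset (ZMod p)).image fun c => c • x := by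
      intro y hy
      obtain ⟨c, hc⟩ := (Finset.mem_filter.1 hy).2
      exact Finset.mem_image.2 ⟨c, Finset.mem_univ _, hc.symm⟩
    have h5 := (Finset.card_le_card h4).trans Finset.card_image_le
    rw [Finset.card_univ, ZMod.card] at h5
    exact_mod_cast h5
  refine (Finset.sum_le_sum h2).trans ?_
  rw [Finset.sum_const, nsmul_eq_mul]
  have h6 : (((univ : Finset (Fin 4 → ZMod p)).erase 0).card : ℝ) ≤ (p : ℝ) ^ 4 := by
    have : ((univ : Finset (Fin 4 → ZMod p)).erase 0).card ≤ p ^ 4 := by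
      refine (Finset.card_erase_le).trans ?_
      rw [Finset.card_univ, Fintype.card_fun, ZMod.card, Fintype.card_fin]
    exact_mod_cast this
  calc _ ≤ (p : ℝ) ^ 4 * (p * Q) := mul_le_mul_of_nonneg_right h6 (by positivity)
    _ = _ := by rw [hQ]; field_simp

/-- The normalised trace minus one. -/
noncomputable def gg (u : Mono d → ZMod p) : ℝ := DD u / (p * (p - 1)) + 1 / (p : ℝ) ^ 2

lemma sum_gg (hd : 1 ≤ d) : ∑ u : Mono d → ZMod p, gg u =
    (p : ℝ) ^ Fintype.card (Mono d) / (p : ℝ) ^ 2 := by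
  unfold gg
  rw [Finset.sum_add_distrib, ← Finset.sum_div, sum_DD hd, Finset.sum_const, Finset.card_univ,
    Fintype.card_fun, ZMod.card, nsmul_eq_mul]
  push_cast
  ring

lemma sum_gg_sq (hd : 1 ≤ d) : ∑ u : Mono d → ZMod p, gg u ^ 2 ≤
    9 * (p : ℝ) ^ Fintype.card (Mono d) := by
  have hp2 : (2 : ℝ) ≤ p := by exact_mod_cast (Fact.out : p.Prime).two_le
  have hp : (0 : ℝ) < p := by linarith
  have hp1 : (0 : ℝ) < p - 1 := by linarith
  have h1 : ∀ u : Mono d → ZMod p, gg u ^ 2 = DD u ^ 2 * (1 / (p * (p - 1)) ^ 2) +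
      DD u * (2 / (p * (p - 1)) / (p : ℝ) ^ 2) + 1 / (p : ℝ) ^ 4 := by
    intro u
    unfold gg
    field_simp
    ring
  simp_rw [h1]
  rw [Finset.sum_add_distrib, Finset.sum_add_distrib, ← Finset.sum_mul, ← Finset.sum_mul,
    sum_DD hd, zero_mul, add_zero, Finset.sum_const, Finset.card_univ, Fintype.card_fun,
    ZMod.card, nsmul_eq_mul]
  push_cast
  set P := (p : ℝ) ^ Fintype.card (Mono d) with hP
  have hP0 : 0 < P := by positivity
  have h2 : (∑ u : Mono d → ZMod p, DD u ^ 2) * (1 / (p * (p - 1)) ^ 2) ≤ 8 * P := by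
    calc _ ≤ (2 * (p : ℝ) ^ 4 * P) * (1 / ((p : ℝ) * (p - 1)) ^ 2) :=
          mul_le_mul_of_nonneg_right (sum_DD_sq hd) (by positivity)
      _ = 2 * (p / (p - 1)) ^ 2 * P := by field_simp
      _ ≤ 2 * 2 ^ 2 * P := by
          have h3 : (p : ℝ) / (p - 1) ≤ 2 := by rw [div_le_iff₀ hp1]; linarith
          have h4 : (0 : ℝ) ≤ (p : ℝ) / (p - 1) := by positivity
          have h5 : ((p : ℝ) / (p - 1)) ^ 2 ≤ 2 ^ 2 := pow_le_pow_left₀ h4 h3 2
          nlinarith
      _ = 8 * P := by ring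
  have h3 : P * (1 / (p : ℝ) ^ 4) ≤ P := by
    have : 1 / (p : ℝ) ^ 4 ≤ 1 := by
      rw [div_le_one (by positivity)]
      exact one_le_pow₀ (by linarith)
    nlinarith
  linarith

lemma bp_eq (hd : 1 ≤ d) (a : Mono d → ℤ) :
    bp p (form a) / p - 1 = gg (p := p) fun m => ((a m : ℤ) : ZMod p) := by
  classical
  have hp2 : (2 : ℝ) ≤ p := by exact_mod_cast (Fact.out : p.Prime).two_le
  have hp : (p : ℝ) ≠ 0 := by linarith
  have hp1 : (p : ℝ) - 1 ≠ 0 := by linarith
  have h1 : Nat.card {x : Fin 4 → ZMod p // aeval x (form a) = 0} =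
      cnt (p := p) fun m => ((a m : ℤ) : ZMod p) := by
    rw [Nat.card_eq_fintype_card, Fintype.card_subtype]
    unfold cnt
    congr 1
    ext x
    rw [Finset.mem_filter, Finset.mem_filter, form_eq, aeval_formR]
    simp only [lf_apply, ver, algebraMap_int_eq, eq_intCast]
  unfold bp points
  rw [h1, cnt_eq hd]
  unfold gg
  field_simp
  ring

/-- Lift of a coefficient vector. -/
def lift (u : Mono d → ZMod p) : Mono d → ℤ := fun m => ((u m).val : ℤ)

lemma good_congr {a b : Mono d → ℤ} (h : ∀ m, ((a m : ℤ) : ZMod p) = ((b m : ℤ) : ZMod p)) :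
    Good p (form a) → Good p (form b) := by
  intro hg K _ _ z h1 h2
  have hK : ∀ m, algebraMap ℤ K (b m) = algebraMap ℤ K (a m) := by
    intro m
    have h3 := (ZMod.intCast_eq_intCast_iff _ _ p).1 (h m)
    simp only [algebraMap_int_eq, eq_intCast]
    rw [CharP.intCast_eq_intCast K p]
    exact h3.symm
  apply hg K z
  · rw [form_eq, aeval_formR] at h1 ⊢
    rw [← h1]
    exact Finset.sum_congr rfl fun m _ => by rw [hK]
  · intro i
    have h3 := h2 i
    rw [form_eq, aeval_pderiv] at h3 ⊢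
    rw [← h3]
    exact Finset.sum_congr rfl fun m _ => by rw [hK]

lemma good_lift (a : Mono d → ℤ) :
    Good p (form (lift (p := p) fun m => ((a m : ℤ) : ZMod p))) ↔ Good p (form a) := by
  have h : ∀ m, (((lift (p := p) fun m => ((a m : ℤ) : ZMod p)) m : ℤ) : ZMod p) =
      ((a m : ℤ) : ZMod p) := by
    intro m
    unfold lift
    simp
  exact ⟨good_congr h, good_congr fun m => (h m).symm⟩

lemma bad_det {u : Mono d → ZMod p} (h : ¬ Good p (form (lift u))) : (mac u).det = 0 := by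
  unfold Good at h
  push Not at h
  obtain ⟨K, _, _, z, _, h2, hz⟩ := h
  let _ : Algebra (ZMod p) K := ZMod.algebra K p
  apply det_mac_eq_zero u hz
  intro i
  have h3 := h2 i
  rw [form_eq, aeval_pderiv] at h3
  rw [aeval_pderiv, ← h3]
  refine Finset.sum_congr rfl fun m _ => ?_
  have h4 : algebraMap (ZMod p) K (u m) = algebraMap ℤ K (lift u m) := by
    calc algebraMap (ZMod p) K (u m) = algebraMap (ZMod p) K (((u m).val : ℕ) : ZMod p) := by
          rw [ZMod.natCast_zmod_val]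
      _ = (((u m).val : ℕ) : K) := map_natCast _ _
      _ = algebraMap ℤ K (lift u m) := by
          unfold lift
          simp only [algebraMap_int_eq, eq_intCast, Int.cast_natCast]
  rw [h4]

/-- The constant for the bad forms. -/
def MM (d : ℕ) : ℕ := Fintype.card (Mono (4 * (d - 1))) + d

lemma card_bad (hd : 1 ≤ d) [DecidablePred fun u : Mono d → ZMod p => ¬ Good p (form (lift u))] :
    (((univ : Finset (Mono d → ZMod p)).filter fun u => ¬ Good p (form (lift u))).card : ℝ) ≤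
      MM d * ((p : ℝ) ^ Fintype.card (Mono d) / p) := by
  classical
  have hp : (0 : ℝ) < p := by exact_mod_cast (Fact.out : p.Prime).pos
  have hc : (Fintype.card (Mono d → ZMod p) : ℝ) = (p : ℝ) ^ Fintype.card (Mono d) := by
    rw [Fintype.card_fun, ZMod.card]; push_cast; ring
  have h0 : (0 : ℝ) ≤ (p : ℝ) ^ Fintype.card (Mono d) := by positivity
  rw [← mul_div_assoc, le_div_iff₀ hp]
  unfold MM
  push_cast
  by_cases hdp : (d : ZMod p) = 0
  · rw [ZMod.natCast_eq_zero_iff] at hdp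
    have hle : p ≤ d := Nat.le_of_dvd (by omega) hdp
    have hle' : (p : ℝ) ≤ d := by exact_mod_cast hle
    have h1 : (((univ : Finset (Mono d → ZMod p)).filter
        fun u => ¬ Good p (form (lift u))).card : ℝ) ≤ (p : ℝ) ^ Fintype.card (Mono d) := by
      rw [← hc]
      exact_mod_cast (Finset.card_filter_le _ _).trans (by rw [Finset.card_univ])
    calc _ ≤ (p : ℝ) ^ Fintype.card (Mono d) * p := mul_le_mul_of_nonneg_right h1 hp.le
      _ ≤ (p : ℝ) ^ Fintype.card (Mono d) * d := mul_le_mul_of_nonneg_left hle' h0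
      _ ≤ _ := by
          have : (0 : ℝ) ≤ (Fintype.card (Mono (4 * (d - 1))) : ℝ) := by positivity
          nlinarith
  · have h1 := card_sing (k := ZMod p) hd hdp
    rw [ZMod.card] at h1
    have h2 : ((univ : Finset (Mono d → ZMod p)).filter
        fun u => ¬ Good p (form (lift u))).card ≤
        ((univ : Finset (Mono d → ZMod p)).filter fun u => (mac u).det = 0).card := by
      apply Finset.card_le_card
      intro u hu
      rw [Finset.mem_filter] at hu ⊢
      exact ⟨hu.1, bad_det hu.2⟩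
    have h3 : (((univ : Finset (Mono d → ZMod p)).filter
        fun u => ¬ Good p (form (lift u))).card : ℝ) * p ≤
        (Fintype.card (Mono (4 * (d - 1))) : ℝ) * (Fintype.card (Mono d → ZMod p) : ℝ) := by
      exact_mod_cast (Nat.mul_le_mul_right p h2).trans h1
    rw [hc] at h3
    have : (0 : ℝ) ≤ (d : ℝ) := by positivity
    nlinarith

open Classical in
/-- The term of the prime `p`. -/
noncomputable def ff (u : Mono d → ZMod p) : ℝ :=
  if Good p (form (lift u)) then gg u else -1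

lemma sum_ff_sq (hd : 1 ≤ d) : ∑ u : Mono d → ZMod p, ff u ^ 2 ≤
    10 * (p : ℝ) ^ Fintype.card (Mono d) := by
  classical
  have h1 : ∀ u : Mono d → ZMod p, ff u ^ 2 ≤ gg u ^ 2 + 1 := by
    intro u
    unfold ff
    split_ifs
    · linarith
    · nlinarith [sq_nonneg (gg u)]
  refine (Finset.sum_le_sum fun u _ => h1 u).trans ?_
  rw [Finset.sum_add_distrib, Finset.sum_const, Finset.card_univ, Fintype.card_fun, ZMod.card,
    nsmul_eq_mul, mul_one]
  have := sum_gg_sq (p := p) hd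
  push_cast
  linarith

lemma abs_sum_ff (hd : 1 ≤ d) : |∑ u : Mono d → ZMod p, ff u| ≤
    (6 + 2 * MM d) * ((p : ℝ) ^ Fintype.card (Mono d) / Real.sqrt p) := by
  classical
  have hp2 : (2 : ℝ) ≤ p := by exact_mod_cast (Fact.out : p.Prime).two_le
  have hp : (0 : ℝ) < p := by linarith
  set s := Real.sqrt p with hs
  have hs0 : 0 < s := Real.sqrt_pos.2 hp
  have hss : s * s = p := Real.mul_self_sqrt hp.le
  have hs1 : 1 ≤ s := by
    rw [hs, Real.one_le_sqrt]; linarith
  set P := (p : ℝ) ^ Fintype.card (Mono d) with hP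
  have hP0 : 0 < P := by positivity
  set Bd := (univ : Finset (Mono d → ZMod p)).filter fun u => ¬ Good p (form (lift u)) with hBd
  have h1 : ∀ u : Mono d → ZMod p, ff u = gg u -
      (if ¬ Good p (form (lift u)) then 1 + gg u else 0) := by
    intro u
    unfold ff
    by_cases h : Good p (form (lift u))
    · rw [if_pos h, if_neg (not_not.2 h)]; ring
    · rw [if_neg h, if_pos h]; ring
  have h2 : ∑ u : Mono d → ZMod p, ff u = P / (p : ℝ) ^ 2 - ∑ u ∈ Bd, (1 + gg u) := by
    simp_rw [h1]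
    rw [Finset.sum_sub_distrib, sum_gg hd, ← Finset.sum_filter]
  have h3 : |∑ u ∈ Bd, (1 + gg u)| ≤ ∑ u ∈ Bd, (1 + s / 2 + gg u ^ 2 / (2 * s)) := by
    refine (Finset.abs_sum_le_sum_abs _ _).trans (Finset.sum_le_sum fun u _ => ?_)
    have h4 : |gg u| ≤ s / 2 + gg u ^ 2 / (2 * s) := by
      have h5 : s / 2 + gg u ^ 2 / (2 * s) = (s ^ 2 + gg u ^ 2) / (2 * s) := by
        field_simp
      rw [h5, le_div_iff₀ (by positivity)]
      have := sq_nonneg (s - |gg u|)
      rw [← sq_abs (gg u)]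
      nlinarith
    calc |1 + gg u| ≤ |1| + |gg u| := abs_add_le _ _
      _ ≤ _ := by rw [abs_one]; linarith
  have h4 : ∑ u ∈ Bd, (1 + s / 2 + gg u ^ 2 / (2 * s)) ≤
      MM d * (P / p) * (1 + s / 2) + 9 * P / (2 * s) := by
    rw [Finset.sum_add_distrib, Finset.sum_const, nsmul_eq_mul]
    have h5 : (Bd.card : ℝ) ≤ MM d * (P / p) := card_bad hd
    have h6 : ∑ u ∈ Bd, gg u ^ 2 / (2 * s) ≤ 9 * P / (2 * s) := by
      rw [← Finset.sum_div]
      apply div_le_div_of_nonneg_right _ (by positivity)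
      exact (Finset.sum_le_sum_of_subset_of_nonneg (Finset.subset_univ _)
        fun _ _ _ => sq_nonneg _).trans (sum_gg_sq hd)
    have h7 : (Bd.card : ℝ) * (1 + s / 2) ≤ MM d * (P / p) * (1 + s / 2) :=
      mul_le_mul_of_nonneg_right h5 (by positivity)
    linarith
  have h5 : |∑ u : Mono d → ZMod p, ff u| ≤ P / (p : ℝ) ^ 2 +
      (MM d * (P / p) * (1 + s / 2) + 9 * P / (2 * s)) := by
    rw [h2]
    refine (abs_sub _ _).trans ?_
    rw [abs_of_pos (by positivity : 0 < P / (p : ℝ) ^ 2)]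
    linarith
  refine h5.trans ?_
  have e1 : P / (p : ℝ) ^ 2 ≤ P / s := by
    apply div_le_div_of_nonneg_left hP0.le hs0
    rw [← hss]
    nlinarith [mul_pos hs0 hs0, mul_pos (mul_pos hs0 hs0) hs0]
  have e2 : P / p * (1 + s / 2) ≤ 2 * (P / s) := by
    rw [← hss]
    rw [div_mul_eq_mul_div, ← mul_div_assoc, div_le_div_iff₀ (by positivity) hs0]
    nlinarith [mul_pos hP0 hs0, mul_pos (mul_pos hP0 hs0) hs0]
  have e3 : 9 * P / (2 * s) ≤ 5 * (P / s) := by
    rw [← mul_div_assoc, div_le_div_iff₀ (by positivity) hs0]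
    nlinarith [mul_pos hP0 hs0, mul_pos (mul_pos hP0 hs0) hs0]
  have hM : (0 : ℝ) ≤ MM d := by positivity
  have e4 : (MM d : ℝ) * (P / p) * (1 + s / 2) ≤ MM d * (2 * (P / s)) := by
    rw [mul_assoc]
    exact mul_le_mul_of_nonneg_left e2 hM
  calc _ ≤ P / s + (MM d * (2 * (P / s)) + 5 * (P / s)) := by linarith
    _ = _ := by ring

end Prime

end Pool.Agent.Helper29.TT
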