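import Pool.Agent.Helper29.TT.Box

set_option autoImplicit false

namespace Pool.Agent.Helper29.TT

open Finset

section Pair

variable {p q M H : ℕ} [Fact p.Prime] [Fact q.Prime] [NeZero M] {J : Type} [Fintype J]
  [DecidableEq J]

lemma single_sum (h : p ∣ M) (hH : p * H < M) (f : (J → ZMod p) → ℝ) :
    ∑ a : J → ZMod M, WW H a * f (fun j => ZMod.castHom h (ZMod p) (a j)) =
      (((H : ℝ) + 1) * M / p) ^ Fintype.card J * ∑ u, f u := by
  have h1 := sum_WW (J := J) H (ZMod.castHom h (ZMod p)).toAddMonoidHom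
    (ZMod.castHom_surjective h) p (by simp) (Fact.out : p.Prime).pos hH f
  rw [ZMod.card] at h1
  exact h1

lemma pair_sum (hpq : p ≠ q) (h : p ∣ M) (h' : q ∣ M) (hH : p * q * H < M)
    (f : (J → ZMod p) → ℝ) (g : (J → ZMod q) → ℝ) :
    ∑ a : J → ZMod M, WW H a * (f (fun j => ZMod.castHom h (ZMod p) (a j)) *
      g (fun j => ZMod.castHom h' (ZMod q) (a j))) =
      (((H : ℝ) + 1) * M / ((p : ℝ) * q)) ^ Fintype.card J * ((∑ u, f u) * ∑ u, g u) := by
  classical
  set π : ZMod M →+ ZMod p × ZMod q :=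
    ((ZMod.castHom h (ZMod p)).toAddMonoidHom).prod ((ZMod.castHom h' (ZMod q)).toAddMonoidHom)
    with hπ
  have hco : Nat.Coprime p q := (Nat.coprime_primes Fact.out Fact.out).2 hpq
  have hsurj : Function.Surjective π := by
    rintro ⟨r, s⟩
    obtain ⟨k, hk1, hk2⟩ := Nat.chineseRemainder hco r.val s.val
    refine ⟨(k : ZMod M), ?_⟩
    have e1 : (k : ZMod p) = r := by
      rw [← ZMod.natCast_zmod_val r]
      exact (ZMod.natCast_eq_natCast_iff _ _ _).2 hk1
    have e2 : (k : ZMod q) = s := by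
      rw [← ZMod.natCast_zmod_val s]
      exact (ZMod.natCast_eq_natCast_iff _ _ _).2 hk2
    apply Prod.ext
    · change (ZMod.castHom h (ZMod p)) (k : ZMod M) = r
      rw [map_natCast, e1]
    · change (ZMod.castHom h' (ZMod q)) (k : ZMod M) = s
      rw [map_natCast, e2]
  have hker : π ((p * q : ℕ) : ZMod M) = 0 := by
    apply Prod.ext
    · change (ZMod.castHom h (ZMod p)) ((p * q : ℕ) : ZMod M) = 0
      rw [map_natCast]; simp
    · change (ZMod.castHom h' (ZMod q)) ((p * q : ℕ) : ZMod M) = 0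
      rw [map_natCast]; simp
  have h1 := sum_WW (J := J) H π hsurj (p * q) hker
    (Nat.mul_pos (Fact.out : p.Prime).pos (Fact.out : q.Prime).pos) hH
    (fun u => f (fun m => (u m).1) * g (fun m => (u m).2))
  have h3 : ∑ u : J → ZMod p × ZMod q, f (fun m => (u m).1) * g (fun m => (u m).2) =
      (∑ u : J → ZMod p, f u) * ∑ u : J → ZMod q, g u := by
    rw [Finset.sum_mul_sum, ← Fintype.sum_prod_type']
    exact Fintype.sum_equiv (Equiv.arrowProdEquivProdArrow J (fun _ => ZMod p)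
      (fun _ => ZMod q)) _ _ fun u => rfl
  rw [Fintype.card_prod, ZMod.card, ZMod.card, h3] at h1
  push_cast at h1
  exact h1

end Pair

lemma real_aux {Z p q sp sq C S1 S2 : ℝ} {N : ℕ} (hZ : 0 < Z) (hp : 0 < p) (hq : 0 < q)
    (hsp : 0 < sp) (hsq : 0 < sq) (hC : 0 ≤ C)
    (h1 : |S1| ≤ C * (p ^ N / sp)) (h2 : |S2| ≤ C * (q ^ N / sq)) :
    |(Z / (p * q)) ^ N * (S1 * S2)| ≤ Z ^ N * ((C / sp) * (C / sq)) := by
  rw [abs_mul, abs_mul, abs_of_pos (by positivity : 0 < (Z / (p * q)) ^ N)]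
  have h5 := mul_le_mul h1 h2 (abs_nonneg _) (by positivity)
  refine (mul_le_mul_of_nonneg_left h5 (by positivity)).trans (le_of_eq ?_)
  rw [div_pow, mul_pow p]
  field_simp

lemma quad (P : Finset ℕ) (c e : ℕ → ℝ) (S : ℕ → ℕ → ℝ) (Z : ℝ) (hZ : 0 ≤ Z)
    (he : ∀ p ∈ P, 0 ≤ e p) (hd : ∀ p ∈ P, S p p ≤ 10 * Z)
    (ho : ∀ p ∈ P, ∀ q ∈ P, p ≠ q → |S p q| ≤ Z * (e p * e q)) :
    ∑ p ∈ P, ∑ q ∈ P, c p * c q * S p q ≤
      Z * (10 * ∑ p ∈ P, c p ^ 2 + (∑ p ∈ P, |c p| * e p) ^ 2) := by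
  have h4 : ∀ p ∈ P, ∀ q ∈ P, c p * c q * S p q ≤
      Z * ((if p = q then 10 * c p ^ 2 else 0) + (|c p| * e p) * (|c q| * e q)) := by
    intro p hp q hq
    have hep := he p hp
    have heq := he q hq
    have hnn : 0 ≤ Z * ((|c p| * e p) * (|c q| * e q)) := by positivity
    by_cases h : p = q
    · rw [← h] at hnn ⊢
      rw [if_pos rfl]
      have h8 := mul_le_mul_of_nonneg_left (hd p hp) (mul_self_nonneg (c p))
      nlinarith
    · rw [if_neg h, zero_add]
      refine (le_abs_self _).trans ?_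
      rw [abs_mul, abs_mul]
      refine (mul_le_mul_of_nonneg_left (ho p hp q hq h) (by positivity)).trans (le_of_eq ?_)
      ring
  refine (Finset.sum_le_sum fun p hp => Finset.sum_le_sum fun q hq => h4 p hp q hq).trans ?_
  apply le_of_eq
  simp_rw [← Finset.mul_sum, Finset.sum_add_distrib]
  congr 1
  congr 1
  · rw [Finset.mul_sum]
    refine Finset.sum_congr rfl fun p hp => ?_
    rw [Finset.sum_ite_eq, if_pos hp]
  · rw [sq, Finset.sum_mul_sum]

end Pool.Agent.Helper29.TT
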