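import Pool.Agent.Helper29.TT.Hp
import Pool.Agent.Helper29.TT.Pair

set_option autoImplicit false

namespace Pool.Agent.Helper29.TT

open Finset MvPolynomial

open Classical in
/-- The term of the prime `p`. -/
noncomputable def tm (p : ℕ) {d : ℕ} (a : Mono d → ℤ) : ℝ :=
  if Good p (form a) then bp p (form a) / p - 1 else -1

section Terms

variable {p : ℕ} [Fact p.Prime] {d : ℕ}

lemma tm_eq (hd : 1 ≤ d) (a : Mono d → ℤ) :
    tm p a = ff (p := p) fun m => ((a m : ℤ) : ZMod p) := by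
  unfold tm ff
  by_cases h : Good p (form a)
  · rw [if_pos h, if_pos ((good_lift a).2 h), bp_eq hd]
  · rw [if_neg h, if_neg (fun h' => h ((good_lift a).1 h'))]

/-- The lift of a vector modulo `M`. -/
def up {M : ℕ} (a : Mono d → ZMod M) : Mono d → ℤ := fun m => ((a m).val : ℤ)

lemma up_cast {M : ℕ} [NeZero M] (h : p ∣ M) (a : Mono d → ZMod M) (m : Mono d) :
    ((up a m : ℤ) : ZMod p) = ZMod.castHom h (ZMod p) (a m) := by
  unfold up
  rw [ZMod.castHom_apply]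
  simp

lemma tm_up (hd : 1 ≤ d) {M : ℕ} [NeZero M] (h : p ∣ M) (a : Mono d → ZMod M) :
    tm p (up a) = ff (p := p) fun m => ZMod.castHom h (ZMod p) (a m) := by
  rw [tm_eq hd]
  congr 1
  funext m
  exact up_cast h a m

lemma tm_up_int (hd : 1 ≤ d) {M : ℕ} [NeZero M] (h : p ∣ M) (a : Mono d → ℤ) :
    tm p (up fun m => ((a m : ℤ) : ZMod M)) = tm p a := by
  rw [tm_up hd h, tm_eq hd]
  congr 1
  funext m
  rw [map_intCast]

/-- The weighted mean of a product. -/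
noncomputable def SS (d M H : ℕ) [NeZero M] (p q : ℕ) : ℝ :=
  ∑ a : Mono d → ZMod M, WW H a * (tm p (up a) * tm q (up a))

lemma diag (hd : 1 ≤ d) {M H : ℕ} [NeZero M] (h : p ∣ M) (hH : p * H < M) :
    SS d M H p p ≤ 10 * (((H : ℝ) + 1) * M) ^ Fintype.card (Mono d) := by
  have hp : (0 : ℝ) < p := by exact_mod_cast (Fact.out : p.Prime).pos
  have h0 : SS d M H p p = ∑ a : Mono d → ZMod M, WW H a *
      (ff (fun j => ZMod.castHom h (ZMod p) (a j))) ^ 2 := by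
    unfold SS
    refine Finset.sum_congr rfl fun a _ => ?_
    rw [tm_up hd h, ← sq]
  have h1 : SS d M H p p = (((H : ℝ) + 1) * M / p) ^ Fintype.card (Mono d) *
      ∑ u : Mono d → ZMod p, ff u ^ 2 :=
    h0.trans (single_sum h hH (fun u : Mono d → ZMod p => ff u ^ 2))
  have h2 := sum_ff_sq (p := p) hd
  rw [h1]
  generalize (∑ u : Mono d → ZMod p, ff u ^ 2) = s at h2 ⊢
  generalize Fintype.card (Mono d) = N at h2 ⊢
  calc _ ≤ (((H : ℝ) + 1) * M / p) ^ N * (10 * (p : ℝ) ^ N) :=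
        mul_le_mul_of_nonneg_left h2 (by positivity)
    _ = _ := by rw [div_pow]; field_simp

lemma offdiag {q : ℕ} [Fact q.Prime] (hpq : p ≠ q) (hd : 1 ≤ d) {M H : ℕ} [NeZero M]
    (h : p ∣ M) (h' : q ∣ M) (hH : p * q * H < M) :
    |SS d M H p q| ≤
      (((H : ℝ) + 1) * M) ^ Fintype.card (Mono d) *
        (((6 + 2 * MM d) / Real.sqrt p) * ((6 + 2 * MM d) / Real.sqrt q)) := by
  have hp : (0 : ℝ) < p := by exact_mod_cast (Fact.out : p.Prime).pos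
  have hq : (0 : ℝ) < q := by exact_mod_cast (Fact.out : q.Prime).pos
  have hM : (0 : ℝ) < M := by exact_mod_cast Nat.pos_of_ne_zero (NeZero.ne M)
  have h0 : SS d M H p q = ∑ a : Mono d → ZMod M, WW H a *
      (ff (fun j => ZMod.castHom h (ZMod p) (a j)) *
        ff (fun j => ZMod.castHom h' (ZMod q) (a j))) := by
    unfold SS
    refine Finset.sum_congr rfl fun a _ => ?_
    rw [tm_up hd h, tm_up hd h']
  have h1 : SS d M H p q = (((H : ℝ) + 1) * M / ((p : ℝ) * q)) ^ Fintype.card (Mono d) *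
      ((∑ u : Mono d → ZMod p, ff u) * ∑ u : Mono d → ZMod q, ff u) :=
    h0.trans (pair_sum hpq h h' hH (fun u : Mono d → ZMod p => ff u)
      (fun u : Mono d → ZMod q => ff u))
  rw [h1]
  exact real_aux (by positivity) hp hq (Real.sqrt_pos.2 hp) (Real.sqrt_pos.2 hq) (by positivity)
    (abs_sum_ff hd) (abs_sum_ff hd)

end Terms

lemma swap_sums {d M : ℕ} [NeZero M] (H : ℕ) (P : Finset ℕ) (c : ℕ → ℝ) :
    ∑ a : Mono d → ZMod M, WW H a * (∑ p ∈ P, c p * tm p (up a)) ^ 2 =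
      ∑ p ∈ P, ∑ q ∈ P, c p * c q * SS d M H p q := by
  unfold SS
  simp_rw [sq, Finset.sum_mul_sum, Finset.mul_sum]
  rw [Finset.sum_comm]
  refine Finset.sum_congr rfl fun p _ => ?_
  rw [Finset.sum_comm]
  refine Finset.sum_congr rfl fun q _ => Finset.sum_congr rfl fun a _ => ?_
  ring

lemma final_aux {H M B : ℝ} {N : ℕ} {R : ℝ} (hH : 0 ≤ H) (hB : 0 ≤ B) (hM : M = 8 * B * H)
    (hR : 0 ≤ R) :
    (2 / (H + 1) ^ 2) ^ N * (((H + 1) * M) ^ N * R) ≤ 8 ^ N * (2 * B + 1) ^ N * R := by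
  have hM0 : 0 ≤ M := by rw [hM]; positivity
  calc (2 / (H + 1) ^ 2) ^ N * (((H + 1) * M) ^ N * R) = (2 * M / (H + 1)) ^ N * R := by
        rw [← mul_assoc, ← mul_pow]
        congr 2
        field_simp
    _ ≤ (8 * (2 * B + 1)) ^ N * R := by
        apply mul_le_mul_of_nonneg_right _ hR
        apply pow_le_pow_left₀ (by positivity)
        rw [div_le_iff₀ (by positivity), hM]
        nlinarith [mul_nonneg hB hH]
    _ = _ := by rw [mul_pow]

lemma main_aux {d : ℕ} (hd : 1 ≤ d) (T B : ℕ) (hTB : T ^ 2 ≤ B)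
    (P : Finset ℕ) (hP : ∀ p ∈ P, p.Prime ∧ p ≤ T) (c : ℕ → ℝ) {M H : ℕ} [NeZero M]
    (hB : 1 ≤ B) (hH0 : 1 ≤ H) (hM : M = 8 * B * H) (hdvd : ∀ p ∈ P, p ∣ M) :
    ∑ p ∈ P, ∑ q ∈ P, c p * c q * SS d M H p q ≤
      (((H : ℝ) + 1) * M) ^ Fintype.card (Mono d) * (10 * ∑ p ∈ P, c p ^ 2 +
        (∑ p ∈ P, |c p| * ((6 + 2 * MM d) / Real.sqrt p)) ^ 2) := by
  apply quad P c (fun p => (6 + 2 * MM d) / Real.sqrt p) (SS d M H)
    ((((H : ℝ) + 1) * M) ^ Fintype.card (Mono d)) (by positivity)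
  · intro p _; positivity
  · intro p hp
    have hpp : Fact p.Prime := ⟨(hP p hp).1⟩
    have h1 : p * H < M := by
      rw [hM]
      have : p ≤ B := (hP p hp).2.trans ((Nat.le_self_pow (by norm_num) T).trans hTB)
      nlinarith
    exact diag hd (hdvd p hp) h1
  · intro p hp q hq hpq
    have hpp : Fact p.Prime := ⟨(hP p hp).1⟩
    have hqq : Fact q.Prime := ⟨(hP q hq).1⟩
    have h1 : p * q * H < M := by
      rw [hM]
      have h51 : p * q ≤ T ^ 2 := by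
        rw [sq]; exact Nat.mul_le_mul (hP p hp).2 (hP q hq).2
      have : p * q ≤ B := h51.trans hTB
      nlinarith
    exact offdiag hpq hd (hdvd p hp) (hdvd q hq) h1

lemma second_moment {d : ℕ} (hd : 1 ≤ d) (T B : ℕ) (hT : 1 ≤ T) (hTB : T ^ 2 ≤ B)
    (P : Finset ℕ) (hP : ∀ p ∈ P, p.Prime ∧ p ≤ T) (c : ℕ → ℝ) :
    ∑ a ∈ box d B, (∑ p ∈ P, c p * tm p a) ^ 2 ≤
      8 ^ Fintype.card (Mono d) * (box d B).card *
        (10 * ∑ p ∈ P, c p ^ 2 + (∑ p ∈ P, |c p| * ((6 + 2 * MM d) / Real.sqrt p)) ^ 2) := by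
  have hB : 1 ≤ B := le_trans (Nat.one_le_pow _ _ hT) hTB
  obtain ⟨H, hH0, hHd⟩ : ∃ H : ℕ, 1 ≤ H ∧ ∀ p ∈ P, p ∣ H :=
    ⟨Nat.factorial T, Nat.factorial_pos T,
      fun p hp => Nat.dvd_factorial (hP p hp).1.pos (hP p hp).2⟩
  obtain ⟨M, hM⟩ : ∃ M : ℕ, M = 8 * B * H := ⟨_, rfl⟩
  have hM0 : 0 < M := by rw [hM]; positivity
  have : NeZero M := ⟨hM0.ne'⟩
  have hdvd : ∀ p ∈ P, p ∣ M := by
    intro p hp
    rw [hM]
    exact Dvd.dvd.mul_left (hHd p hp) _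
  have h1 := box_le (M := M) H (d := d) (B := B) (by rw [hM]; nlinarith) (by rw [hM]; nlinarith)
    (fun a => (∑ p ∈ P, c p * tm p (up a)) ^ 2) (fun a => sq_nonneg _)
  have h2 : ∑ a ∈ box d B, (∑ p ∈ P, c p * tm p a) ^ 2 =
      ∑ a ∈ box d B, (∑ p ∈ P, c p * tm p (up fun m => ((a m : ℤ) : ZMod M))) ^ 2 := by
    refine Finset.sum_congr rfl fun a _ => ?_
    congr 1
    refine Finset.sum_congr rfl fun p hp => ?_
    have : Fact p.Prime := ⟨(hP p hp).1⟩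
    rw [tm_up_int hd (hdvd p hp)]
  rw [h2]
  refine h1.trans ?_
  rw [swap_sums]
  have h5 := main_aux hd T B hTB P hP c hB hH0 hM hdvd
  have hR0 : 0 ≤ 10 * ∑ p ∈ P, c p ^ 2 +
      (∑ p ∈ P, |c p| * ((6 + 2 * MM d) / Real.sqrt p)) ^ 2 := by
    have h6 : 0 ≤ ∑ p ∈ P, c p ^ 2 := Finset.sum_nonneg fun p _ => sq_nonneg _
    exact add_nonneg (mul_nonneg (by norm_num) h6) (sq_nonneg _)
  have hH' : (0 : ℝ) ≤ H := Nat.cast_nonneg _
  have hB' : (0 : ℝ) ≤ B := Nat.cast_nonneg _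
  have hM' : (M : ℝ) = 8 * B * H := by rw [hM]; push_cast; ring
  have h7 : (0 : ℝ) ≤ (2 / ((H : ℝ) + 1) ^ 2) ^ Fintype.card (Mono d) :=
    pow_nonneg (div_nonneg (by norm_num) (sq_nonneg _)) _
  refine (mul_le_mul_of_nonneg_left h5 h7).trans ?_
  rw [card_box]
  exact final_aux hH' hB' hM' hR0

end Pool.Agent.Helper29.TT
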